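import Pool.Agent.Run7.h363.PA.Cl3

set_option autoImplicit false

/-!
# `K` and functions algebraic over `F_2(X, P)`; extraction operators
-/

namespace Pool.Agent.Run7.h363.PA

open PowerSeries Pool.Agent.TH693.PP Pool.Agent.TH693.QQ Pool.Agent.H397R2.PP Pool.Agent.Y627.PT

section abs

variable {k L M : Type} [Field k] [Field L] [Algebra k L] [Field M] [Algebra k M]

theorem cl_comap' (e : L →ₐ[k] M) {s : Set L} {y : L} (h : e y ∈ QE2.cl k (e '' s)) :
    y ∈ QE2.cl k s := by
  have hmap : (Algebra.adjoin k s).map e = Algebra.adjoin k (e '' s) := AlgHom.map_adjoin e s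
  let φ : Algebra.adjoin k s →ₐ[k] Algebra.adjoin k (e '' s) :=
    (e.comp (Algebra.adjoin k s).val).codRestrict (Algebra.adjoin k (e '' s)) (by
      intro x
      rw [← hmap]
      exact Subalgebra.mem_map.2 ⟨x.1, x.2, rfl⟩)
  have hsurj : Function.Surjective φ := by
    intro y
    have hy : (y : M) ∈ (Algebra.adjoin k s).map e := by rw [hmap]; exact y.2
    obtain ⟨x, hx, hxy⟩ := Subalgebra.mem_map.1 hy
    exact ⟨⟨x, hx⟩, Subtype.ext hxy⟩
  rw [QE2.mem_cl] at h ⊢
  exact IsAlgebraic.of_ringHom_of_comp_eq φ.toRingHom e.toRingHom h hsurj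
    e.toRingHom.injective (RingHom.ext fun x => rfl)

end abs

theorem jjDb_ne : T5.jj Db ≠ 0 := by
  rw [Ne, map_eq_zero_iff T5.jj T5.jj_inj]
  intro h
  have h2 : Db = X * E ^ 24 := rfl
  rw [h2] at h
  have hE : E ≠ 0 := by
    intro h3
    have := constE
    rw [h3, map_zero] at this
    exact zero_ne_one this
  exact mul_ne_zero X_ne (pow_ne_zero _ hE) h

theorem exD_inv {B : ℕ} (hB : B ≠ 0) : T5.jj Db ∈ QE2.cl (ZMod 2) {T5.jj (ex B hB Db)} := by
  have h1 : T5.jj (ex B hB Db) ∉ (AlgebraicIndependent.matroid (ZMod 2) Lk).closure ∅ := by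
    intro h
    have hne : T5.jj (ex B hB Db) ≠ 0 := by
      rw [Ne, map_eq_zero_iff T5.jj T5.jj_inj]
      intro h2
      exact jjDb_ne (by rw [ex_inj B hB (h2.trans (map_zero _).symm), map_zero])
    obtain ⟨n, hn, hn1⟩ := QE2.root_of_unity (k := ZMod 2) hne h
    have h3 : (ex B hB Db) ^ n = 1 := by
      apply T5.jj_inj
      rw [map_pow, map_one]
      exact hn1
    have h4 : Db ^ n = 1 := by
      apply ex_inj B hB
      rw [map_pow, map_one]
      exact h3
    have h5 := congrArg constantCoeff h4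
    have hD : Db = X * E ^ 24 := rfl
    rw [map_pow, map_one, hD, map_mul, constantCoeff_X, zero_mul, zero_pow hn.ne'] at h5
    exact zero_ne_one h5
  have h2 : T5.jj (ex B hB Db) ∈
      (AlgebraicIndependent.matroid (ZMod 2) Lk).closure (insert (T5.jj Db) ∅) := by
    rw [insert_empty_eq]
    exact exD_all hB
  have h3 := Matroid.mem_closure_insert h1 h2
  rw [insert_empty_eq] at h3
  exact h3

theorem ph_jj (q : ℕ) (hq : q ≠ 0) (g : S) : ph q hq (T5.jj g) = T5.jj (ex q hq g) := by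
  rw [T5.jj_apply, ph_alg, ph0_ik, T5.jj_apply]

theorem of_ex_mem {f : S} {B : ℕ} (hB : B ≠ 0) (h : T5.jj (ex B hB f) ∈ KF) : T5.jj f ∈ KF := by
  apply cl_comap' (ph B hB)
  rw [ph_jj]
  refine QE2.cl_cl (s := {T5.jj X, T5.jj Db}) ?_ h
  have hX : ex B hB X = X ^ B := PowerSeries.expand_X B hB
  intro x hx
  rcases hx with rfl | hx
  · apply QE2.of_pow_mem (Nat.pos_of_ne_zero hB)
    rw [← map_pow, ← hX, ← ph_jj]
    exact QE2.self_mem ⟨_, by simp, rfl⟩
  · rw [Set.mem_singleton_iff.1 hx]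
    refine QE2.cl_mono ?_ (exD_inv hB)
    intro z hz
    rw [Set.mem_singleton_iff.1 hz, ← ph_jj]
    exact ⟨_, by simp, rfl⟩

/-- elements of `K` are algebraic over `F_2(X, P)` -/
theorem isAlgebraic_of_mem {y : S} (h : T5.jj y ∈ KF) :
    IsAlgebraic (Algebra.adjoin (ZMod 2) {(X : S), P}) y := by
  have hP0 : T5.jj P ≠ 0 := by
    rw [Ne, map_eq_zero_iff T5.jj T5.jj_inj]
    exact P_ne
  have hX' : T5.jj X ∈ QE2.cl (ZMod 2) {T5.jj X, T5.jj P} := QE2.self_mem (by simp)
  have hP' : T5.jj P ∈ QE2.cl (ZMod 2) {T5.jj X, T5.jj P} := QE2.self_mem (by simp)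
  have h1 : T5.jj y ∈ QE2.cl (ZMod 2) {T5.jj X, T5.jj P} := by
    refine QE2.cl_cl (s := {T5.jj X, T5.jj Db}) ?_ h
    intro x hx
    rcases hx with rfl | hx
    · exact hX'
    · rw [Set.mem_singleton_iff.1 hx]
      have h2 : T5.jj Db * T5.jj P ^ 24 = xx := by
        rw [← map_pow, ← map_mul]
        congr 1
        have hD : Db = X * E ^ 24 := rfl
        rw [hD, mul_assoc, ← mul_pow, mul_comm E P, P_mul_E, one_pow, mul_one]
      have h3 : T5.jj Db = xx * (T5.jj P ^ 24)⁻¹ := by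
        rw [← h2, mul_assoc, mul_inv_cancel₀ (pow_ne_zero _ hP0), mul_one]
      rw [h3]
      exact QE2.mul_mem' hX' (QE2.inv_mem' (QE2.pow_mem' hP' 24))
  obtain ⟨G, hG, he⟩ := T5.algOver_of_mem h1
  have hC : ∀ q : F, io q ∈ Algebra.adjoin (ZMod 2) {(X : S), P} := by
    intro q
    induction q using Polynomial.induction_on with
    | C a => rw [QE2.io_C]; exact Subalgebra.algebraMap_mem _ _
    | add p q hp hq => rw [map_add]; exact Subalgebra.add_mem _ hp hq
    | monomial n a _ =>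
      rw [map_mul, map_pow, QE2.io_X, QE2.io_C]
      exact Subalgebra.mul_mem _ (Subalgebra.algebraMap_mem _ _)
        (Subalgebra.pow_mem _ (Algebra.subset_adjoin (by simp)) _)
  have hev : ∀ g : Polynomial F, evp P g ∈ Algebra.adjoin (ZMod 2) {(X : S), P} := by
    intro g
    induction g using Polynomial.induction_on with
    | C a => rw [QE2.evp_C]; exact hC a
    | add p q hp hq => rw [map_add]; exact Subalgebra.add_mem _ hp hq
    | monomial n a _ =>
      rw [map_mul, map_pow, QE2.evp_X, QE2.evp_C]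
      exact Subalgebra.mul_mem _ (hC a)
        (Subalgebra.pow_mem _ (Algebra.subset_adjoin (by simp)) _)
  have hlift : G.map (evp P) ∈
      Polynomial.lifts (algebraMap (Algebra.adjoin (ZMod 2) {(X : S), P}) S) := by
    rw [Polynomial.lifts_iff_coeff_lifts]
    intro n
    rw [Polynomial.coeff_map]
    exact ⟨⟨_, hev (G.coeff n)⟩, rfl⟩
  obtain ⟨p, hp⟩ := (Polynomial.mem_lifts _).1 hlift
  refine ⟨p, ?_, ?_⟩
  · rintro rfl
    rw [Polynomial.map_zero] at hp
    exact hG hp.symm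
  · rw [Polynomial.aeval_def, ← Polynomial.eval_map, hp]
    exact he

theorem isAlgebraic_iff {y : S} :
    IsAlgebraic (Algebra.adjoin (ZMod 2) {(X : S), P}) y ↔ T5.jj y ∈ KF :=
  ⟨mem_of_isAlgebraic, isAlgebraic_of_mem⟩

theorem io_mem' (q : F) : T5.jj (io q) ∈ KF := by
  induction q using Polynomial.induction_on with
  | C a =>
    rw [QE2.io_C]
    rcases (by decide : ∀ r : ZMod 2, r = 0 ∨ r = 1) a with rfl | rfl
    · rw [map_zero, map_zero]; exact KF.zero_mem
    · rw [map_one, map_one]; exact KF.one_mem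
  | add p q hp hq => rw [map_add, map_add]; exact KF.add_mem hp hq
  | monomial n a _ =>
    rw [map_mul, map_pow, QE2.io_X, QE2.io_C, map_mul, map_pow]
    refine KF.mul_mem ?_ (KF.pow_mem xx_mem _)
    rcases (by decide : ∀ r : ZMod 2, r = 0 ∨ r = 1) a with rfl | rfl
    · rw [map_zero, map_zero]; exact KF.zero_mem
    · rw [map_one, map_one]; exact KF.one_mem

/-- extraction -/
theorem fn_rel' (f : S) (M r : ℕ) (hM : M ≠ 0) :
    X ^ r * ex M hM (fn f M r) + io (PowerSeries.trunc r (proj M r f)) = proj M r f := by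
  ext n
  rw [map_add, show coeff n (io (PowerSeries.trunc r (proj M r f))) =
    coeff n ((PowerSeries.trunc r (proj M r f) : F) : S) from rfl, Polynomial.coeff_coe,
    PowerSeries.coeff_trunc, PowerSeries.coeff_X_pow_mul']
  by_cases h : n < r
  · rw [if_pos h, if_neg (by omega), zero_add]
  · rw [if_neg h, if_pos (by omega), add_zero]
    obtain ⟨l, rfl⟩ : ∃ l, n = r + l := ⟨n - r, by omega⟩
    rw [Nat.add_sub_cancel_left, proj, coeff_mk]
    unfold ex
    rw [PowerSeries.coeff_expand]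
    by_cases h1 : M ∣ l
    · obtain ⟨q, rfl⟩ := h1
      rw [if_pos (Dvd.intro q rfl), Nat.mul_div_cancel_left q (Nat.pos_of_ne_zero hM), fn, coeff_mk,
        if_pos (Nat.add_mul_mod_self_left r M q), add_comm]
    · rw [if_neg h1, if_neg]
      intro h2
      apply h1
      have h3 : r + l ≡ r + 0 [MOD M] := h2
      exact (Nat.modEq_zero_iff_dvd).1 (Nat.ModEq.add_left_cancel' r h3)

theorem fn_mem {f : S} (hf : T5.jj f ∈ KF) {M : ℕ} (hM : M ≠ 0) (r : ℕ) :
    T5.jj (fn f M r) ∈ KF := by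
  have h1 := fn_rel' f M r hM
  have h2 := proj_mem hf M r (Nat.pos_of_ne_zero hM)
  rw [← h1, map_add, map_mul, map_pow] at h2
  have h3 := KF.sub_mem h2 (io_mem' (PowerSeries.trunc r (proj M r f)))
  rw [add_sub_cancel_right] at h3
  apply of_ex_mem hM
  have h4 := KF.mul_mem (KF.inv_mem (KF.pow_mem xx_mem r)) h3
  rwa [← mul_assoc, inv_mul_cancel₀ (pow_ne_zero _ xx_ne), one_mul] at h4

end Pool.Agent.Run7.h363.PA
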