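import Pool.Agent.Y627.PT.Gen

set_option autoImplicit false

/-!
# The field of functions algebraic over `F_2(X, D)` and its subfields of sums `a ^ 2 + X b ^ 2`
-/

namespace Pool.Agent.Run7.h363.PA

open PowerSeries Pool.Agent.TH693.PP Pool.Agent.TH693.QQ Pool.Agent.H397R2.PP Pool.Agent.Y627.PT

section abs

variable {k L : Type} [Field k] [Field L] [Algebra k L]

theorem cl_add {s : Set L} {y z : L} (hy : y ∈ QE2.cl k s) (hz : z ∈ QE2.cl k s) :
    y + z ∈ QE2.cl k s :=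
  QE2.mem_cl.2 ((QE2.mem_cl.1 hy).add (QE2.mem_cl.1 hz))

theorem cl_neg {s : Set L} {y : L} (hy : y ∈ QE2.cl k s) : -y ∈ QE2.cl k s :=
  QE2.mem_cl.2 (QE2.mem_cl.1 hy).neg

theorem cl_zero {s : Set L} : (0 : L) ∈ QE2.cl k s := QE2.mem_cl.2 isAlgebraic_zero

theorem cl_one {s : Set L} : (1 : L) ∈ QE2.cl k s := QE2.mem_cl.2 isAlgebraic_one

/-- the closure as a field -/
noncomputable def clF (k : Type) {L : Type} [Field k] [Field L] [Algebra k L] (s : Set L) :
    Subfield L where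
  carrier := QE2.cl k s
  mul_mem' := QE2.mul_mem'
  one_mem' := cl_one
  add_mem' := cl_add
  zero_mem' := cl_zero
  neg_mem' := cl_neg
  inv_mem' := fun _ h => QE2.inv_mem' h

theorem mem_clF {s : Set L} {y : L} : y ∈ clF k s ↔ y ∈ QE2.cl k s := Iff.rfl

/-- the closure is algebraically closed in `L` -/
theorem cl_root {s : Set L} (Q : Polynomial L) (hQ0 : Q ≠ 0)
    (hQ : ∀ n, Q.coeff n ∈ QE2.cl k s) {xi : L} (h : Q.eval xi = 0) : xi ∈ QE2.cl k s := by
  rw [QE2.mem_cl]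
  set Kc := Subalgebra.algebraicClosure (Algebra.adjoin k s) L with hKc
  have hmem : ∀ y : L, y ∈ Kc ↔ y ∈ QE2.cl k s := by
    intro y
    rw [QE2.mem_cl, hKc, Subalgebra.mem_algebraicClosure]
  have hlift : Q ∈ Polynomial.lifts (algebraMap Kc L) := by
    rw [Polynomial.lifts_iff_coeff_lifts]
    intro n
    exact ⟨⟨Q.coeff n, (hmem _).2 (hQ n)⟩, rfl⟩
  obtain ⟨G, hG⟩ := (Polynomial.mem_lifts Q).1 hlift
  have h1 : IsAlgebraic Kc xi := by
    refine ⟨G, ?_, ?_⟩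
    · rintro rfl
      rw [Polynomial.map_zero] at hG
      exact hQ0 hG.symm
    · rw [← hG, Polynomial.eval_map] at h
      exact h
  have h2 : Algebra.IsAlgebraic (Algebra.adjoin k s) Kc := by
    constructor
    intro x
    have h3 : IsAlgebraic (Algebra.adjoin k s) (x : L) :=
      (Subalgebra.mem_algebraicClosure _ _).1 x.2
    exact (isAlgebraic_algebraMap_iff (A := L) (R := Algebra.adjoin k s) (S := Kc)
      Subtype.val_injective).1 h3
  exact h1.restrictScalars (Algebra.adjoin k s)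

end abs

/-- the field `K` of functions algebraic over `F_2(X, D)` -/
noncomputable abbrev KF : Subfield Lk := clF (ZMod 2) {T5.jj X, T5.jj Db}

theorem xx_mem : xx ∈ KF := QE2.self_mem (by simp)

theorem dd_mem : T5.jj Db ∈ KF := QE2.self_mem (by simp)

theorem two_Lk : (2 : Lk) = 0 := by
  have h := congrArg (algebraMap (ZMod 2) Lk) (show (2 : ZMod 2) = 0 from rfl)
  rwa [map_ofNat, map_zero] at h

/-- `X` is not a square -/
theorem xx_not_sq (c : Lk) : c ^ 2 ≠ xx := by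
  intro h
  obtain ⟨⟨a, b⟩, hab⟩ := IsLocalization.surj (nonZeroDivisors Sk) c
  have hb0 : (b : Sk) ≠ 0 := nonZeroDivisors.ne_zero b.2
  have h1 : algebraMap Sk Lk (X * (b : Sk) ^ 2) = algebraMap Sk Lk (a ^ 2) := by
    rw [map_mul, map_pow, map_pow]
    simp only at hab
    rw [← hab, mul_pow, h]
    rw [show xx = algebraMap Sk Lk X from T5.jj_X]
  have h2 := IsFractionRing.injective Sk Lk h1
  have h3 := congrArg PowerSeries.order h2
  rw [PowerSeries.order_mul, PowerSeries.order_pow, PowerSeries.order_pow,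
    PowerSeries.order_X] at h3
  have hbt : (b : Sk).order ≠ ⊤ := by
    rw [Ne, PowerSeries.order_eq_top]
    exact hb0
  obtain ⟨m, hm⟩ := ENat.ne_top_iff_exists.1 hbt
  rw [← hm] at h3
  by_cases ha : a.order = ⊤
  · rw [ha] at h3
    have : ((1 + 2 * m : ℕ) : ℕ∞) = ⊤ := by
      rw [← h3.trans (by simp : (2 : ℕ) • (⊤ : ℕ∞) = ⊤)]
      simp
    exact ENat.natCast_ne_top _ this
  · obtain ⟨l, hl⟩ := ENat.ne_top_iff_exists.1 ha
    rw [← hl] at h3
    have h4 : ((1 + 2 * m : ℕ) : ℕ∞) = ((2 * l : ℕ) : ℕ∞) := by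
      push_cast
      simpa using h3
    have h5 : 1 + 2 * m = 2 * l := by exact_mod_cast h4
    omega

theorem sq_uniq {a b c d : Lk} (h : a ^ 2 + xx * b ^ 2 = c ^ 2 + xx * d ^ 2) : a = c ∧ b = d := by
  have h1 : (a - c) ^ 2 = xx * (b - d) ^ 2 := by
    linear_combination h + (c * c - a * c - xx * b * b + xx * b * d) * two_Lk
  have h2 : b = d := by
    by_contra hne
    have hne' : b - d ≠ 0 := sub_ne_zero.2 hne
    apply xx_not_sq ((a - c) / (b - d))
    rw [div_pow, h1]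
    field_simp
  refine ⟨?_, h2⟩
  rw [h2, sub_self, zero_pow two_ne_zero, mul_zero] at h1
  exact sub_eq_zero.1 (pow_eq_zero_iff two_ne_zero |>.1 h1)

/-- the field of the `a ^ 2 + X b ^ 2`, `a, b ∈ T`, in `T` -/
noncomputable def nxt (T : {T : Subfield Lk // xx ∈ T}) : {T : Subfield Lk // xx ∈ T} where
  val :=
    { carrier := {z | z ∈ T.1 ∧ ∃ a ∈ T.1, ∃ b ∈ T.1, z = a ^ 2 + xx * b ^ 2}
      mul_mem' := by
        rintro y z ⟨hy, a, ha, b, hb, rfl⟩ ⟨hz, c, hc, d, hd, rfl⟩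
        refine ⟨T.1.mul_mem hy hz, a * c + xx * (b * d), T.1.add_mem (T.1.mul_mem ha hc)
          (T.1.mul_mem T.2 (T.1.mul_mem hb hd)), a * d + b * c,
          T.1.add_mem (T.1.mul_mem ha hd) (T.1.mul_mem hb hc), ?_⟩
        linear_combination (-(a * c * xx * b * d) - xx * a * d * b * c) * two_Lk
      one_mem' := ⟨T.1.one_mem, 1, T.1.one_mem, 0, T.1.zero_mem, by ring⟩
      add_mem' := by
        rintro y z ⟨hy, a, ha, b, hb, rfl⟩ ⟨hz, c, hc, d, hd, rfl⟩
        refine ⟨T.1.add_mem hy hz, a + c, T.1.add_mem ha hc, b + d, T.1.add_mem hb hd, ?_⟩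
        linear_combination (-(a * c) - xx * b * d) * two_Lk
      zero_mem' := ⟨T.1.zero_mem, 0, T.1.zero_mem, 0, T.1.zero_mem, by ring⟩
      neg_mem' := by
        rintro y ⟨hy, a, ha, b, hb, rfl⟩
        refine ⟨T.1.neg_mem hy, a, ha, b, hb, ?_⟩
        linear_combination (-(a ^ 2) - xx * b ^ 2) * two_Lk
      inv_mem' := by
        rintro y ⟨hy, a, ha, b, hb, hab⟩
        refine ⟨T.1.inv_mem hy, a * y⁻¹, T.1.mul_mem ha (T.1.inv_mem hy), b * y⁻¹,
          T.1.mul_mem hb (T.1.inv_mem hy), ?_⟩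
        by_cases h0 : y = 0
        · rw [h0]; simp
        · have h1 : (a * y⁻¹) ^ 2 + xx * (b * y⁻¹) ^ 2 = (a ^ 2 + xx * b ^ 2) * (y⁻¹) ^ 2 := by ring
          rw [h1, ← hab]
          field_simp }
  property := ⟨T.2, 0, T.1.zero_mem, 1, T.1.one_mem, by ring⟩

/-- the sequence of fields -/
noncomputable def Tn : ℕ → {T : Subfield Lk // xx ∈ T}
  | 0 => ⟨KF, xx_mem⟩
  | n + 1 => nxt (Tn n)

theorem mem_Tn_zero {z : Lk} : z ∈ (Tn 0).1 ↔ z ∈ KF := Iff.rfl

theorem mem_Tn_succ {n : ℕ} {z : Lk} : z ∈ (Tn (n + 1)).1 ↔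
    z ∈ (Tn n).1 ∧ ∃ a ∈ (Tn n).1, ∃ b ∈ (Tn n).1, z = a ^ 2 + xx * b ^ 2 := Iff.rfl

theorem Tn_le (n : ℕ) {z : Lk} (h : z ∈ (Tn n).1) : z ∈ KF := by
  induction n with
  | zero => exact h
  | succ n ih => exact ih (mem_Tn_succ.1 h).1

theorem pow_mem_Tn {z : Lk} (h : z ∈ KF) (n : ℕ) : z ^ 2 ^ n ∈ (Tn n).1 := by
  induction n with
  | zero => rw [pow_zero, pow_one]; exact h
  | succ n ih =>
    rw [mem_Tn_succ]
    have h1 : z ^ 2 ^ (n + 1) = (z ^ 2 ^ n) ^ 2 := by rw [← pow_mul, pow_succ]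
    rw [h1]
    exact ⟨(Tn n).1.pow_mem ih 2, _, ih, 0, (Tn n).1.zero_mem, by ring⟩

theorem descend {n : ℕ} {w : Lk} (h : w ^ 2 ∈ (Tn (n + 1)).1) : w ∈ (Tn n).1 := by
  obtain ⟨-, a, ha, b, hb, hab⟩ := mem_Tn_succ.1 h
  have h1 : w ^ 2 + xx * 0 ^ 2 = a ^ 2 + xx * b ^ 2 := by rw [← hab]; ring
  rw [(sq_uniq h1).1]
  exact ha

theorem descend' {n j : ℕ} {w : Lk} (h : w ^ 2 ^ j ∈ (Tn (n + j)).1) : w ∈ (Tn n).1 := by
  induction j generalizing w with
  | zero => rwa [pow_zero, pow_one] at h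
  | succ j ih =>
    apply ih
    have h1 : (w ^ 2 ^ j) ^ 2 ∈ (Tn ((n + j) + 1)).1 := by
      rw [← pow_mul, ← pow_succ]
      exact h
    exact descend h1

/-- the even and the odd part -/
theorem split2 (f : S) : ∃ a b : S, f = a ^ 2 + X * b ^ 2 := by
  refine ⟨PowerSeries.mk fun n => coeff (2 * n) f, PowerSeries.mk fun n => coeff (2 * n + 1) f, ?_⟩
  have h1 : ∀ g : S, g ^ 2 = PowerSeries.expand 2 two_ne_zero g := fun g => pow_two_expand 1 g
  ext n
  rw [map_add, h1, h1, PowerSeries.coeff_expand]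
  rcases Nat.even_or_odd' n with ⟨m, rfl | rfl⟩
  · rw [if_pos (Dvd.intro m rfl), Nat.mul_div_cancel_left m two_pos, coeff_mk]
    rcases m with _ | m
    · rw [mul_zero, PowerSeries.coeff_zero_X_mul, add_zero]
    · have h2 : 2 * (m + 1) = (2 * m + 1) + 1 := by ring
      rw [h2, PowerSeries.coeff_succ_X_mul, PowerSeries.coeff_expand, if_neg (by omega), add_zero]
  · rw [if_neg (by omega), zero_add, PowerSeries.coeff_succ_X_mul,
      PowerSeries.coeff_expand, if_pos (Dvd.intro m rfl), Nat.mul_div_cancel_left m two_pos, coeff_mk]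

end Pool.Agent.Run7.h363.PA
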