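import Pool.Agent.Run7.h363.PA.Cl

set_option autoImplicit false

/-!
# Every element of `K` is `a ^ 2 + X b ^ 2` with `a, b ∈ K`; sections
-/

namespace Pool.Agent.Run7.h363.PA

open PowerSeries Pool.Agent.TH693.PP Pool.Agent.TH693.QQ Pool.Agent.H397R2.PP Pool.Agent.Y627.PT

theorem sq_expand (g : S) : g ^ 2 = PowerSeries.expand 2 two_ne_zero g := pow_two_expand 1 g

theorem coeff_sq_even (g : S) (m : ℕ) : coeff (2 * m) (g ^ 2) = coeff m g := by
  rw [sq_expand, PowerSeries.coeff_expand, if_pos (Dvd.intro m rfl),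
    Nat.mul_div_cancel_left m two_pos]

theorem coeff_sq_odd (g : S) (m : ℕ) : coeff (2 * m + 1) (g ^ 2) = 0 := by
  rw [sq_expand, PowerSeries.coeff_expand, if_neg (by omega)]

theorem coeff_Xsq_even (g : S) (m : ℕ) : coeff (2 * m) (X * g ^ 2) = 0 := by
  rcases m with _ | m
  · rw [mul_zero, PowerSeries.coeff_zero_X_mul]
  · have h2 : 2 * (m + 1) = (2 * m + 1) + 1 := by ring
    rw [h2, PowerSeries.coeff_succ_X_mul, coeff_sq_odd]

theorem coeff_Xsq_odd (g : S) (m : ℕ) : coeff (2 * m + 1) (X * g ^ 2) = coeff m g := by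
  rw [PowerSeries.coeff_succ_X_mul, coeff_sq_even]

theorem proj_even (M r : ℕ) (a b : S) :
    proj (2 * M) (2 * r) (a ^ 2 + X * b ^ 2) = (proj M r a) ^ 2 := by
  ext n
  rw [proj, coeff_mk]
  rcases Nat.even_or_odd' n with ⟨m, rfl | rfl⟩
  · rw [coeff_sq_even, map_add, coeff_sq_even, coeff_Xsq_even, add_zero, proj, coeff_mk,
      Nat.mul_mod_mul_left, Nat.mul_mod_mul_left]
    by_cases h : m % M = r % M
    · rw [if_pos h, if_pos (by rw [h])]
    · rw [if_neg h, if_neg (fun h1 => h (Nat.eq_of_mul_eq_mul_left two_pos h1))]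
  · rw [coeff_sq_odd, if_neg]
    intro h
    have h1 : (2 * m + 1) ≡ 2 * r [MOD 2] := Nat.ModEq.of_mul_right M h
    unfold Nat.ModEq at h1
    omega

theorem proj_odd (M r : ℕ) (a b : S) :
    proj (2 * M) (2 * r + 1) (a ^ 2 + X * b ^ 2) = X * (proj M r b) ^ 2 := by
  ext n
  rw [proj, coeff_mk]
  rcases Nat.even_or_odd' n with ⟨m, rfl | rfl⟩
  · rw [coeff_Xsq_even, if_neg]
    intro h
    have h1 : (2 * m) ≡ 2 * r + 1 [MOD 2] := Nat.ModEq.of_mul_right M h
    unfold Nat.ModEq at h1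
    omega
  · rw [coeff_Xsq_odd, map_add, coeff_sq_odd, coeff_Xsq_odd, zero_add, proj, coeff_mk]
    by_cases h : m % M = r % M
    · have h1 : (2 * m + 1) % (2 * M) = (2 * r + 1) % (2 * M) := by
        have h2 : 2 * m ≡ 2 * r [MOD 2 * M] := Nat.ModEq.mul_left' 2 h
        exact Nat.ModEq.add_right 1 h2
      rw [if_pos h, if_pos h1]
    · rw [if_neg h, if_neg]
      intro h1
      apply h
      have h2 : 2 * m ≡ 2 * r [MOD 2 * M] := Nat.ModEq.add_right_cancel' 1 h1
      exact Nat.ModEq.mul_left_cancel' two_ne_zero h2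

/-- functions with all sections modulo powers of two in `K` -/
def Good (f : S) : Prop := ∀ k r : ℕ, T5.jj (proj (2 ^ k) r f) ∈ KF

theorem of_sq_mem {w : Lk} (h : w ^ 2 ∈ KF) : w ∈ KF := QE2.of_pow_mem two_pos h

theorem of_xx_mul_mem {w : Lk} (h : xx * w ∈ KF) : w ∈ KF := by
  have h1 := KF.mul_mem (KF.inv_mem xx_mem) h
  rwa [← mul_assoc, inv_mul_cancel₀ xx_ne, one_mul] at h1

theorem good_left {a b : S} (h : Good (a ^ 2 + X * b ^ 2)) : Good a := by
  intro k r
  have h1 := h (k + 1) (2 * r)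
  rw [pow_succ, mul_comm (2 ^ k) 2, proj_even, map_pow] at h1
  exact of_sq_mem h1

theorem good_right {a b : S} (h : Good (a ^ 2 + X * b ^ 2)) : Good b := by
  intro k r
  have h1 := h (k + 1) (2 * r + 1)
  rw [pow_succ, mul_comm (2 ^ k) 2, proj_odd, map_mul, map_pow] at h1
  exact of_sq_mem (of_xx_mul_mem h1)

theorem good_Tn (n : ℕ) : ∀ f : S, Good f → T5.jj f ∈ (Tn n).1 := by
  induction n with
  | zero =>
    intro f hf
    have := hf 0 0
    rwa [pow_zero, proj_one] at this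
  | succ n ih =>
    intro f hf
    rw [mem_Tn_succ]
    refine ⟨ih f hf, ?_⟩
    obtain ⟨a, b, rfl⟩ := split2 f
    refine ⟨T5.jj a, ih a (good_left hf), T5.jj b, ih b (good_right hf), ?_⟩
    rw [map_add, map_mul, map_pow, map_pow]

theorem good_P : Good P := fun k r => mem_of_az (sec_P (2 ^ k) r (by positivity))

theorem dd_mem_Tn (n : ℕ) : T5.jj Db ∈ (Tn n).1 := by
  have h1 := good_Tn n P good_P
  have h2 : T5.jj Db * T5.jj P ^ 24 = xx := by
    rw [← map_pow, ← map_mul]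
    congr 1
    have hD : Db = X * E ^ 24 := rfl
    rw [hD, mul_assoc, ← mul_pow, mul_comm E P, P_mul_E, one_pow, mul_one]
  have hP0 : T5.jj P ≠ 0 := by
    rw [Ne, map_eq_zero_iff T5.jj T5.jj_inj]
    exact P_ne
  have h3 : T5.jj Db = xx * (T5.jj P ^ 24)⁻¹ := by
    rw [← h2, mul_assoc, mul_inv_cancel₀ (pow_ne_zero _ hP0), mul_one]
  rw [h3]
  exact (Tn n).1.mul_mem (Tn n).2 ((Tn n).1.inv_mem ((Tn n).1.pow_mem h1 24))

instance charLk : CharP Lk 2 :=
  charP_of_injective_algebraMap (algebraMap (ZMod 2) Lk).injective 2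

instance charT (T : Subfield Lk) : CharP T 2 :=
  (RingHom.charP_iff T.subtype T.subtype.injective 2).2 charLk

/-- a purely inseparable and separable element -/
theorem sep_in (T : Subfield Lk) (z : Lk) (m : ℕ) (hz : z ^ 2 ^ m ∈ T) (g : Polynomial T)
    (hg : g.Separable) (hgz : Polynomial.aeval z g = 0) : z ∈ T := by
  have h1 : z ∈ separableClosure T Lk := by
    rw [mem_separableClosure_iff]
    exact hg.of_dvd (minpoly.dvd T z hgz)
  have h2 : z ∈ perfectClosure T Lk := by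
    rw [mem_perfectClosure_iff_pow_mem 2]
    exact ⟨m, ⟨⟨_, hz⟩, rfl⟩⟩
  have h3 : z ∈ separableClosure T Lk ⊓ perfectClosure T Lk := ⟨h1, h2⟩
  rw [separableClosure_inf_perfectClosure, IntermediateField.mem_bot] at h3
  obtain ⟨t, rfl⟩ := h3
  exact t.2

theorem mem_T1 {y : Lk} (hy : y ∈ KF) : y ∈ (Tn 1).1 := by
  classical
  set K0 : Subfield Lk := ⨅ n, (Tn n).1 with hK0
  have hle : ∀ n, K0 ≤ (Tn n).1 := fun n => iInf_le _ n
  have hx : xx ∈ K0 := by
    rw [hK0, Subfield.mem_iInf]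
    exact fun n => (Tn n).2
  have hd : T5.jj Db ∈ K0 := by
    rw [hK0, Subfield.mem_iInf]
    exact dd_mem_Tn
  have hadj : ∀ a ∈ Algebra.adjoin (ZMod 2) {T5.jj X, T5.jj Db}, a ∈ K0 := by
    intro a ha
    induction ha using Algebra.adjoin_induction with
    | mem x hx' =>
      rcases hx' with rfl | hx'
      · exact hx
      · rw [Set.mem_singleton_iff.1 hx']
        exact hd
    | algebraMap r =>
      rcases (by decide : ∀ r : ZMod 2, r = 0 ∨ r = 1) r with rfl | rfl
      · rw [map_zero]; exact K0.zero_mem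
      · rw [map_one]; exact K0.one_mem
    | add x y _ _ hx hy => exact K0.add_mem hx hy
    | mul x y _ _ hx hy => exact K0.mul_mem hx hy
  have halg : IsAlgebraic K0 y := by
    have h1 : IsAlgebraic (Algebra.adjoin (ZMod 2) {T5.jj X, T5.jj Db}) y := QE2.mem_cl.1 hy
    let φ : Algebra.adjoin (ZMod 2) {T5.jj X, T5.jj Db} →+* K0 :=
      (Algebra.adjoin (ZMod 2) {T5.jj X, T5.jj Db}).val.toRingHom.codRestrict K0
        (fun a => hadj a a.2)
    exact IsAlgebraic.ringHom_of_comp_eq φ (RingHom.id Lk) h1 (by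
      intro a b hab
      exact Subtype.ext (congrArg (fun t : K0 => (t : Lk)) hab)) (RingHom.ext fun _ => rfl)
  have hirr := minpoly.irreducible halg.isIntegral
  obtain ⟨n, g, hg, hexp⟩ := Polynomial.exists_separable_of_irreducible 2 hirr two_ne_zero
  have hgz : Polynomial.aeval (y ^ 2 ^ n) g = 0 := by
    rw [← Polynomial.expand_aeval, hexp]
    exact minpoly.aeval K0 y
  have hz : y ^ 2 ^ n ∈ (Tn (1 + n)).1 := by
    refine sep_in (Tn (1 + n)).1 _ (1 + n) (pow_mem_Tn (KF.pow_mem hy _) _)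
      (g.map (Subfield.inclusion (hle (1 + n)))) hg.map ?_
    rw [Polynomial.aeval_def, Polynomial.eval₂_map]
    exact hgz
  exact descend' hz

end Pool.Agent.Run7.h363.PA
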