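import Pool.Agent.Run7.h363.PA.Cl2

set_option autoImplicit false

/-!
# The field `K` is closed under sections and under `X → X ^ d`
-/

namespace Pool.Agent.Run7.h363.PA

open PowerSeries Pool.Agent.TH693.PP Pool.Agent.TH693.QQ Pool.Agent.H397R2.PP Pool.Agent.Y627.PT

theorem parts_mem {a b : S} (h : T5.jj (a ^ 2 + X * b ^ 2) ∈ KF) :
    T5.jj a ∈ KF ∧ T5.jj b ∈ KF := by
  obtain ⟨-, a', ha, b', hb, hab⟩ := mem_Tn_succ.1 (mem_T1 h)
  rw [map_add, map_mul, map_pow, map_pow] at hab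
  obtain ⟨h1, h2⟩ := sq_uniq hab
  rw [h1, h2]
  exact ⟨ha, hb⟩

theorem good_of_mem_aux (k : ℕ) : ∀ f : S, T5.jj f ∈ KF → ∀ r, T5.jj (proj (2 ^ k) r f) ∈ KF := by
  induction k with
  | zero =>
    intro f hf r
    rwa [pow_zero, proj_one]
  | succ k ih =>
    intro f hf r
    obtain ⟨a, b, rfl⟩ := split2 f
    obtain ⟨ha, hb⟩ := parts_mem hf
    rw [pow_succ, mul_comm (2 ^ k) 2]
    rcases Nat.even_or_odd' r with ⟨m, rfl | rfl⟩
    · rw [proj_even, map_pow]
      exact KF.pow_mem (ih a ha m) 2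
    · rw [proj_odd, map_mul, map_pow]
      exact KF.mul_mem xx_mem (KF.pow_mem (ih b hb m) 2)

theorem good_of_mem {f : S} (hf : T5.jj f ∈ KF) : Good f := fun k r => good_of_mem_aux k f hf r

/-- images under ring homomorphisms -/
theorem hom_mem (φ : S →+* Lk) (hφ : Function.Injective φ) (hX : φ X ∈ KF) (hD : φ Db ∈ KF)
    {f : S} (hf : T5.jj f ∈ KF) : φ f ∈ KF := by
  obtain ⟨G, hG, he⟩ := T5.algOver_of_mem hf
  have hC : ∀ a : ZMod 2, φ (algebraMap (ZMod 2) S a) ∈ KF := by
    intro a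
    rcases (by decide : ∀ r : ZMod 2, r = 0 ∨ r = 1) a with rfl | rfl
    · rw [map_zero, map_zero]; exact KF.zero_mem
    · rw [map_one, map_one]; exact KF.one_mem
  have hio : ∀ q : F, φ (io q) ∈ KF := by
    intro q
    induction q using Polynomial.induction_on with
    | C a => rw [QE2.io_C]; exact hC a
    | add p q hp hq => rw [map_add, map_add]; exact KF.add_mem hp hq
    | monomial n a _ =>
      rw [map_mul, map_pow, QE2.io_X, QE2.io_C, map_mul, map_pow]
      exact KF.mul_mem (hC a) (KF.pow_mem hX _)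
  have hev : ∀ g : Polynomial F, φ (evp Db g) ∈ KF := by
    intro g
    induction g using Polynomial.induction_on with
    | C a => rw [QE2.evp_C]; exact hio a
    | add p q hp hq => rw [map_add, map_add]; exact KF.add_mem hp hq
    | monomial n a _ =>
      rw [map_mul, map_pow, QE2.evp_X, QE2.evp_C, map_mul, map_pow]
      exact KF.mul_mem (hio a) (KF.pow_mem hD _)
  refine cl_root ((G.map (evp Db)).map φ) ((Polynomial.map_ne_zero_iff hφ).2 hG) (fun n => ?_) ?_
  · rw [Polynomial.coeff_map, Polynomial.coeff_map]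
    exact hev _
  · rw [Polynomial.eval_map]
    have h1 := congrArg φ he
    rw [map_zero] at h1
    rw [← h1]
    exact (Polynomial.hom_eval₂ (G.map (evp Db)) (RingHom.id S) φ f).symm

theorem const_mem (u : kk) : algebraMap Sk Lk (C u) ∈ KF :=
  QE2.cl_mono (by simp) (al_mem (T4.AL_const u))

theorem fi_mem {m : ℕ} (hm : Odd m) {u : kk} (hu : u ^ m = 1) {f : S} (hf : T5.jj f ∈ KF) :
    T4.fi u f ∈ KF := by
  have hu0 : u ≠ 0 := by
    rintro rfl
    rw [zero_pow (by rintro rfl; exact absurd hm (by decide))] at hu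
    exact zero_ne_one hu
  refine hom_mem (T4.fi u) (T4.fi_inj u hu0) ?_ ?_ hf
  · rw [T4.fi_X, ← T5.jj_X]
    exact KF.mul_mem (const_mem u) xx_mem
  · exact QE2.cl_mono (by simp) (al_mem (fi_D_mem hm hu))

theorem proj_mem {f : S} (hf : T5.jj f ∈ KF) (M r : ℕ) (hM : 0 < M) :
    T5.jj (proj M r f) ∈ KF := by
  obtain ⟨k, m, hm, rfl⟩ := Nat.exists_eq_two_pow_mul_odd hM.ne'
  have hne : NeZero ((m : ℕ) : ZMod 2) := ⟨by
    rw [Ne, ZMod.natCast_eq_zero_iff]
    exact fun h => (Nat.not_even_iff_odd.2 hm) (even_iff_two_dvd.2 h)⟩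
  obtain ⟨z, hz⟩ := HasEnoughRootsOfUnity.exists_primitiveRoot kk m
  have hzi : ∀ i, (z ^ i) ^ m = 1 := fun i => by
    rw [← pow_mul, mul_comm, pow_mul, hz.pow_eq_one, one_pow]
  rw [T5.jj_apply, T4.proj_sum k m r hm z hz f, map_sum]
  refine KF.sum_mem fun i _ => ?_
  rw [map_mul, ← T4.fi_apply]
  exact KF.mul_mem (const_mem _) (fi_mem hm (hzi i) (good_of_mem hf k r))

theorem ex_mem {f : S} (hf : T5.jj f ∈ KF) {d : ℕ} (hd : d ≠ 0) : T5.jj (ex d hd f) ∈ KF := by
  refine hom_mem (T5.jj.toRingHom.comp (ex d hd).toRingHom) ?_ ?_ ?_ hf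
  · intro a b h
    exact ex_inj d hd (T5.jj_inj h)
  · have hX : ex d hd X = X ^ d := PowerSeries.expand_X d hd
    change T5.jj (ex d hd X) ∈ KF
    rw [hX, map_pow]
    exact KF.pow_mem xx_mem d
  · exact QE2.cl_mono (by simp) (exD_all hd)

theorem P_mem : T5.jj P ∈ KF := mem_of_alx alx_P

/-- functions algebraic over `F_2(X, P)` -/
theorem mem_of_isAlgebraic {y : S} (h : IsAlgebraic (Algebra.adjoin (ZMod 2) {(X : S), P}) y) :
    T5.jj y ∈ KF := by
  obtain ⟨p, hp, he⟩ := h
  have hadj : ∀ a ∈ Algebra.adjoin (ZMod 2) {(X : S), P}, T5.jj a ∈ KF := by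
    intro a ha
    induction ha using Algebra.adjoin_induction with
    | mem x hx' =>
      rcases hx' with rfl | hx'
      · exact xx_mem
      · rw [Set.mem_singleton_iff.1 hx']
        exact P_mem
    | algebraMap r =>
      rcases (by decide : ∀ r : ZMod 2, r = 0 ∨ r = 1) r with rfl | rfl
      · rw [map_zero, map_zero]; exact KF.zero_mem
      · rw [map_one, map_one]; exact KF.one_mem
    | add x y _ _ hx hy => rw [map_add]; exact KF.add_mem hx hy
    | mul x y _ _ hx hy => rw [map_mul]; exact KF.mul_mem hx hy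
  set φ : Algebra.adjoin (ZMod 2) {(X : S), P} →+* Lk :=
    T5.jj.toRingHom.comp (Algebra.adjoin (ZMod 2) {(X : S), P}).val.toRingHom with hφ
  have hinj : Function.Injective φ := by
    intro a b hab
    exact Subtype.ext (T5.jj_inj hab)
  refine cl_root (p.map φ) ((Polynomial.map_ne_zero_iff hinj).2 hp) (fun n => ?_) ?_
  · rw [Polynomial.coeff_map]
    exact hadj _ (p.coeff n).2
  · rw [Polynomial.eval_map]
    have h1 := congrArg T5.jj.toRingHom he
    rw [map_zero] at h1
    rw [← h1, Polynomial.aeval_def, Polynomial.hom_eval₂]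
    rfl

end Pool.Agent.Run7.h363.PA
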