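import Pool.Agent.Run7.h363.PA.Cl3
import Pool.Agent.Y627.PT.Main

set_option autoImplicit false

/-!
# The dichotomy on windows
-/

namespace Pool.Agent.Run7.h363.PA

open PowerSeries Pool.Agent.TH693.PP Pool.Agent.TH693.QQ Pool.Agent.H397R2.PP Pool.Agent.Y627.PT

/-- linear forms in the sections of the dilates of elements of `K` -/
theorem lfor_K {J : Type} [Fintype J] (G : J → S) (hG : ∀ j, T5.jj (G j) ∈ KF)
    (m i : J → ℕ) (B M : ℕ) (hB0 : B ≠ 0) (hm : ∀ j, m j ∣ B) (hi : ∀ j, i j < m j) (hM : 0 < M) :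
    LFor (fun j : J × Fin M => proj M j.2 (fn (G j.1) (m j.1) (i j.1))) := by
  have hX : ex B hB0 X = X ^ B := PowerSeries.expand_X B hB0
  have h1 := lf Pool.Agent.Y38.PT6.clo mtDb
    (fun j : J × Fin M => ex B hB0 (proj M j.2 (fn (G j.1) (m j.1) (i j.1)))) (by
      intro j
      obtain ⟨e, he⟩ := hm j.1
      have he0 : e ≠ 0 := by rintro rfl; exact hB0 (by rw [he, mul_zero])
      have h2 := fn_rel (G j.1) (m j.1) (i j.1) e j.2 M B (by rw [he]; ring) hB0 he0 (hi j.1)
      have h4 : T5.jj (ex e he0 (proj (m j.1 * M) (m j.1 * j.2 + i j.1) (G j.1))) ∈ KF :=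
        ex_mem (proj_mem (hG j.1) _ _ (Nat.mul_pos (by have := hi j.1; omega) hM)) he0
      rw [← h2, map_mul, map_pow] at h4
      apply T5.algOver_of_mem
      have h5 : T5.jj X ^ (i j.1 * e) ∈ KF := KF.pow_mem xx_mem _
      have h6 := KF.mul_mem h4 (KF.inv_mem h5)
      rwa [mul_comm, ← mul_assoc, inv_mul_cancel₀ (pow_ne_zero _ xx_ne), one_mul] at h6)
  obtain ⟨C, hC⟩ := h1
  refine ⟨C, fun h c d hc hd hne N hN => ?_⟩
  have h2 : ∑ j : J × Fin M, io (Polynomial.expand (ZMod 2) B (c j)) *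
      ex B hB0 (proj M j.2 (fn (G j.1) (m j.1) (i j.1))) + io (Polynomial.expand (ZMod 2) B d) =
      ex B hB0 (∑ j : J × Fin M, io (c j) * proj M j.2 (fn (G j.1) (m j.1) (i j.1)) + io d) := by
    rw [map_add, map_sum, ex_io]
    congr 1
    refine Finset.sum_congr rfl fun j _ => ?_
    rw [map_mul, ex_io]
  have h3 := hC (B * h) (fun j => Polynomial.expand (ZMod 2) B (c j))
    (Polynomial.expand (ZMod 2) B d)
    (fun j => by rw [Polynomial.natDegree_expand, mul_comm]; exact Nat.mul_le_mul_left _ (hc j))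
    (by rw [Polynomial.natDegree_expand, mul_comm]; exact Nat.mul_le_mul_left _ hd)
    (by
      rw [h2]
      intro h4
      exact hne (ex_inj B hB0 (h4.trans (map_zero _).symm)))
    (B * N) (by
      rw [h2]
      obtain ⟨w, hw⟩ := hN
      refine ⟨ex B hB0 w, ?_⟩
      rw [pow_mul, ← hX, ← map_pow, ← map_mul]
      exact congrArg _ hw)
  have hBp : 0 < B := Nat.pos_of_ne_zero hB0
  have h5 : B * N ≤ B * (C * (h + 1)) := by
    refine h3.trans ?_
    have : C * (B * h + 1) ≤ C * (B * h + B) := Nat.mul_le_mul_left _ (by omega)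
    refine this.trans (le_of_eq ?_)
    ring
  exact Nat.le_of_mul_le_mul_left h5 hBp

/-- the dichotomy -/
theorem dich {J : Type} [Fintype J] (f : J → S) (M : ℕ) (hM : 0 < M)
    (hLF : LFor (fun j : J × Fin M => proj M j.2 (f j.1))) :
    ∃ C : ℕ, ∀ (L : ℕ) (c : J → Fin (L + 1) → ZMod 2) (ρ A : ℕ),
      (∀ n, A ≤ n → n % M = ρ % M →
        ∑ t, ∑ i : Fin (L + 1), c t i * coeff (n + M + i) (f t) =
        ∑ t, ∑ i : Fin (L + 1), c t i * coeff (n + i) (f t)) ∨
      ∀ κ : ZMod 2, ∃ n, A ≤ n ∧ n ≤ C * (A + L + 1) ∧ n % M = ρ % M ∧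
        ∑ t, ∑ i : Fin (L + 1), c t i * coeff (n + i) (f t) = κ := by
  classical
  obtain ⟨C, hC⟩ := hLF
  refine ⟨C * (M + 1), fun L c ρ A => ?_⟩
  by_contra hcon0
  push Not at hcon0
  obtain ⟨hnc, κ, hcon⟩ := hcon0
  have h1 : ∀ a b : ZMod 2, a ≠ b → a = b + 1 := by decide
  set B := C * (M + 1) * (A + L + 1) with hB
  have hrun : ∀ n, A ≤ n → n ≤ B → n % M = ρ % M →
      ∑ t, ∑ i : Fin (L + 1), c t i * coeff (n + i) (f t) = κ + 1 :=
    fun n h2 h3 h4 => h1 _ _ (hcon n h2 h3 h4)
  -- the coefficients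
  set a : J × Fin M → F := fun j => ∑ i : Fin (L + 1), if (ρ + i) % M = j.2 then
    Polynomial.C (c j.1 i) * Polynomial.X ^ (L - i) else 0 with ha
  set l0 : S := ∑ j : J × Fin M, io (a j) * proj M j.2 (f j.1) with hl0
  have hco : ∀ n, coeff (n + L) l0 = if n % M = ρ % M then
      ∑ t, ∑ i : Fin (L + 1), c t i * coeff (n + i) (f t) else 0 := by
    intro n
    have e1 : ∀ j : J × Fin M, coeff (n + L) (io (a j) * proj M j.2 (f j.1)) =
        ∑ i : Fin (L + 1), if (ρ + i) % M = j.2 then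
          c j.1 i * coeff (n + i) (proj M j.2 (f j.1)) else 0 := by
      intro j
      rw [ha]
      simp only [map_sum, Finset.sum_mul]
      refine Finset.sum_congr rfl fun i _ => ?_
      split_ifs with h2
      · have h4 : io (Polynomial.C (c j.1 i) * Polynomial.X ^ (L - (i : ℕ))) =
            algebraMap (ZMod 2) S (c j.1 i) * X ^ (L - (i : ℕ)) := by
          rw [map_mul, map_pow, QE2.io_X, QE2.io_C]
        have h3 : n + L = (n + i) + (L - i) := by have := i.2; omega
        rw [h4, mul_assoc, h3, ← Algebra.smul_def, map_smul, PowerSeries.coeff_X_pow_mul,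
          smul_eq_mul]
      · rw [map_zero, zero_mul, map_zero]
    rw [hl0, map_sum, Finset.sum_congr rfl fun j _ => e1 j, Fintype.sum_prod_type]
    have e2 : ∀ t : J, ∑ r : Fin M, ∑ i : Fin (L + 1), (if (ρ + i) % M = (r : ℕ) then
        c t i * coeff (n + i) (proj M r (f t)) else 0) =
        ∑ i : Fin (L + 1), if n % M = ρ % M then c t i * coeff (n + i) (f t) else 0 := by
      intro t
      rw [Finset.sum_comm]
      refine Finset.sum_congr rfl fun i _ => ?_
      have hlt : (ρ + i) % M < M := Nat.mod_lt _ hM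
      rw [Finset.sum_eq_single (⟨(ρ + i) % M, hlt⟩ : Fin M)]
      · rw [if_pos rfl]
        unfold proj
        rw [coeff_mk]
        simp only [Nat.mod_mod]
        by_cases h2 : n % M = ρ % M
        · have h3 : (n + (i : ℕ)) % M = (ρ + i) % M := Nat.ModEq.add_right _ h2
          rw [if_pos h2, if_pos h3]
        · have h3 : ¬ (n + (i : ℕ)) % M = (ρ + i) % M := fun h3 =>
            h2 (Nat.ModEq.add_right_cancel' _ h3)
          rw [if_neg h2, if_neg h3, mul_zero]
      · intro r _ hr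
        rw [if_neg]
        intro h2
        exact hr (Fin.ext h2.symm)
      · intro h2
        exact absurd (Finset.mem_univ _) h2
    rw [Finset.sum_congr rfl fun t _ => e2 t]
    split_ifs
    · rfl
    · simp
  set U : F := 1 + Polynomial.X ^ M with hU
  have hUd : U.natDegree ≤ M := by
    refine (Polynomial.natDegree_add_le _ _).trans (max_le (by simp) ?_)
    exact (Polynomial.natDegree_X_pow_le M)
  set g : S := io U * l0 with hg
  set b : F := PowerSeries.trunc (A + M + L) g with hb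
  set a' : J × Fin M → F := fun j => U * a j with ha'
  have hlam : ∑ j : J × Fin M, io (a' j) * proj M j.2 (f j.1) + io b = g + io b := by
    rw [hg, hl0, Finset.mul_sum]
    congr 1
    refine Finset.sum_congr rfl fun j _ => ?_
    rw [ha', map_mul, mul_assoc]
  have had : ∀ j, (a j).natDegree ≤ L := by
    intro j
    refine Polynomial.natDegree_sum_le_of_forall_le _ _ fun i _ => ?_
    split_ifs
    · refine (Polynomial.natDegree_C_mul_X_pow_le _ _).trans (Nat.sub_le _ _)
    · simp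
  have ha'd : ∀ j, (a' j).natDegree ≤ A + M + L := by
    intro j
    refine Polynomial.natDegree_mul_le.trans ?_
    have := had j
    omega
  have hbd : b.natDegree ≤ A + M + L := by
    obtain ⟨q, hq⟩ : ∃ q, A + M + L = q + 1 := ⟨A + M + L - 1, by omega⟩
    rw [hb, hq]
    exact (PowerSeries.natDegree_trunc_lt g q).le
  have e : g = l0 + X ^ M * l0 := by
    rw [hg, hU, map_add, map_one, map_pow, QE2.io_X]
    ring
  have hgco : ∀ n, coeff (n + M + L) g = coeff (n + M + L) l0 + coeff (n + L) l0 := by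
    intro n
    have e3 : n + M + L = (n + L) + M := by ring
    rw [e, map_add]
    congr 1
    rw [e3, PowerSeries.coeff_X_pow_mul]
  have hne : ∑ j : J × Fin M, io (a' j) * proj M j.2 (f j.1) + io b ≠ 0 := by
    intro h0
    rw [hlam] at h0
    obtain ⟨n, hn1, hn2, hn3⟩ := hnc
    apply hn3
    have h2 := congrArg (coeff (n + M + L)) h0
    rw [map_add, map_zero, show coeff (n + M + L) (io b) = coeff (n + M + L) (b : S) from rfl,
      Polynomial.coeff_coe, hb, PowerSeries.coeff_trunc, if_neg (by omega), add_zero, hgco,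
      hco, hco, Nat.add_mod_right, if_pos hn2, if_pos hn2] at h2
    exact (by decide : ∀ x y : ZMod 2, x + y = 0 → x = y) _ _ h2
  have hdvd : (X : S) ^ (B + L + 1) ∣ ∑ j : J × Fin M, io (a' j) * proj M j.2 (f j.1) + io b := by
    rw [hlam, PowerSeries.X_pow_dvd_iff]
    intro m hm
    rw [map_add, show coeff m (io b) = coeff m (b : S) from rfl, Polynomial.coeff_coe, hb,
      PowerSeries.coeff_trunc]
    split_ifs with h2
    · exact (by decide : ∀ a : ZMod 2, a + a = 0) _
    · rw [add_zero]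
      obtain ⟨n, rfl⟩ : ∃ n, m = n + M + L := ⟨m - M - L, by omega⟩
      rw [hgco, hco, hco, Nat.add_mod_right]
      split_ifs with h5
      · rw [hrun n (by omega) (by omega) h5, hrun (n + M) (by omega) (by omega)
          (by rw [Nat.add_mod_right]; exact h5)]
        exact (by decide : ∀ a : ZMod 2, a + a = 0) _
      · rw [add_zero]
  have h3 := hC (A + M + L) a' b ha'd hbd hne _ hdvd
  have h4 : C * (A + M + L + 1) ≤ C * (M + 1) * (A + L + 1) := by
    rw [mul_assoc]
    refine Nat.mul_le_mul_left _ ?_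
    nlinarith [Nat.zero_le (M * A), Nat.zero_le (M * L)]
  omega

/-- periodic with period `M` in a class modulo `M` -/
theorem const_of_step {w : ℕ → ZMod 2} {M A ρ : ℕ}
    (h : ∀ n, A ≤ n → n % M = ρ % M → w (n + M) = w n) {n n' : ℕ} (hn : A ≤ n) (hn' : n ≤ n')
    (h1 : n % M = ρ % M) (h2 : n' % M = ρ % M) : w n' = w n := by
  obtain ⟨q, hq⟩ : M ∣ n' - n := (Nat.modEq_iff_dvd' hn').1 (h1.trans h2.symm)
  obtain rfl : n' = n + M * q := by omega
  clear hq h2 hn'
  induction q with
  | zero => rfl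
  | succ q ih =>
    rw [← ih, mul_add, mul_one, ← add_assoc]
    exact h _ (by omega) (by rw [Nat.add_mul_mod_self_left]; exact h1)

/-- the main theorem -/
theorem main_dich {Y : Type} [Fintype Y] (G : Y → S) (hG : ∀ x, T5.jj (G x) ∈ KF)
    (m : Y → ℕ) (hm : ∀ x, 0 < m x) (M : ℕ) (hM : 0 < M) :
    ∃ C : ℕ, ∀ (K : ℕ) (c : Y → ℕ → ZMod 2) (ρ A : ℕ),
      (∀ n n', A ≤ n → A ≤ n' → n % M = ρ % M → n' % M = ρ % M →
        ∑ x, ∑ i ∈ Finset.range K, c x i * coeff (m x * n + i) (G x) =
        ∑ x, ∑ i ∈ Finset.range K, c x i * coeff (m x * n' + i) (G x)) ∨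
      ∀ κ : ZMod 2, ∃ n, A ≤ n ∧ n ≤ C * (A + K) ∧ n % M = ρ % M ∧
        ∑ x, ∑ i ∈ Finset.range K, c x i * coeff (m x * n + i) (G x) = κ := by
  classical
  set B : ℕ := ∏ x, m x with hB
  have hB0 : B ≠ 0 := Finset.prod_ne_zero_iff.2 fun x _ => (hm x).ne'
  have hmB : ∀ x, m x ∣ B := fun x => Finset.dvd_prod_of_mem m (Finset.mem_univ x)
  obtain ⟨C, hC⟩ := dich (fun j : (x : Y) × Fin (m x) => fn (G j.1) (m j.1) j.2) M hM
    (lfor_K (fun j : (x : Y) × Fin (m x) => G j.1) (fun j => hG j.1)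
      (fun j => m j.1) (fun j => j.2) B M hB0 (fun j => hmB j.1) (fun j => j.2.2) hM)
  refine ⟨2 * C, fun K c ρ A => ?_⟩
  rcases Nat.eq_zero_or_pos K with rfl | hK
  · left
    intro n n' _ _ _ _
    simp
  set c' : ((x : Y) × Fin (m x)) → Fin (K + 1) → ZMod 2 := fun j l =>
    if m j.1 * l + j.2 < K then c j.1 (m j.1 * l + j.2) else 0 with hc'
  have key : ∀ n, ∑ x, ∑ i ∈ Finset.range K, c x i * coeff (m x * n + i) (G x) =
      ∑ t, ∑ i : Fin (K + 1), c' t i * coeff (n + i) (fn (G t.1) (m t.1) t.2) := by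
    intro n
    rw [Fintype.sum_sigma]
    refine Finset.sum_congr rfl fun x _ => ?_
    rw [← sum_split (m x) K (hm x) (fun i => c x i * coeff (m x * n + i) (G x)), Finset.sum_range]
    refine Finset.sum_congr rfl fun i0 _ => ?_
    rw [Finset.sum_range]
    refine Finset.sum_congr rfl fun l _ => ?_
    rw [hc', fn, coeff_mk]
    simp only
    rw [show m x * (n + (l : ℕ)) + (i0 : ℕ) = m x * n + (m x * l + i0) by ring]
    split_ifs
    · rfl
    · rw [zero_mul]
  rcases hC K c' ρ A with h | h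
  · left
    have h0 : ∀ n n', A ≤ n → n ≤ n' → n % M = ρ % M → n' % M = ρ % M →
        ∑ x, ∑ i ∈ Finset.range K, c x i * coeff (m x * n' + i) (G x) =
        ∑ x, ∑ i ∈ Finset.range K, c x i * coeff (m x * n + i) (G x) := by
      intro n n' h1 h2 h3 h4
      exact const_of_step (w := fun n => ∑ x, ∑ i ∈ Finset.range K, c x i * coeff (m x * n + i) (G x))
        (fun n h5 h6 => by simp only [key]; exact h n h5 h6) h1 h2 h3 h4
    intro n n' h1 h2 h3 h4
    rcases le_total n n' with h5 | h5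
    · exact (h0 n n' h1 h5 h3 h4).symm
    · exact h0 n' n h2 h5 h4 h3
  · right
    intro κ
    obtain ⟨n, h1, h2, h3, h4⟩ := h κ
    refine ⟨n, h1, ?_, h3, by rw [key]; exact h4⟩
    refine h2.trans ?_
    have : C * (A + K + 1) ≤ C * (2 * (A + K)) := Nat.mul_le_mul_left _ (by omega)
    refine this.trans (le_of_eq ?_)
    ring

end Pool.Agent.Run7.h363.PA
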