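import Pool.Agent.Run7.h363.PA.Fr

set_option autoImplicit false

/-!
# Existence and uniqueness of the rational powers of `P`
-/

namespace Pool.Agent.Run7.h363.PA

open PowerSeries Pool.Agent.TH693.PP Pool.Agent.TH693.QQ Pool.Agent.H397R2.PP Pool.Agent.Y627.PT

theorem two_S : (2 : S) = 0 := by
  have h := congrArg (algebraMap (ZMod 2) S) (show (2 : ZMod 2) = 0 from rfl)
  rwa [map_ofNat, map_zero] at h

theorem sub_pow_two_pow (a b : S) (k : ℕ) : (a - b) ^ 2 ^ k = a ^ 2 ^ k - b ^ 2 ^ k := by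
  induction k with
  | zero => simp
  | succ k ih =>
    rw [pow_succ, pow_mul, ih, pow_mul, pow_mul]
    linear_combination (b ^ 2 ^ k * b ^ 2 ^ k - a ^ 2 ^ k * b ^ 2 ^ k) * two_S

theorem P_pow_dvd {c c' : ℕ} (k : ℕ) (h : c ≡ c' [MOD 2 ^ k]) :
    (X : S) ^ 2 ^ k ∣ P ^ c' - P ^ c := by
  wlog hle : c ≤ c' generalizing c c'
  · have h1 := this h.symm (by omega)
    rw [← neg_sub, dvd_neg]
    exact h1
  obtain ⟨q, hq⟩ := (Nat.modEq_iff_dvd' hle).1 h
  obtain rfl : c' = c + 2 ^ k * q := by omega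
  have h1 : P ^ (c + 2 ^ k * q) - P ^ c = P ^ c * (P ^ q - 1) ^ 2 ^ k := by
    rw [sub_pow_two_pow, one_pow, pow_add, mul_comm (2 ^ k) q, pow_mul]
    ring
  rw [h1]
  refine Dvd.dvd.mul_left (pow_dvd_pow_of_dvd ?_ _) _
  rw [PowerSeries.X_dvd_iff, map_sub, map_pow, map_one, constP, one_pow, sub_self]

theorem exists_pow (t : ℚ) (ht : Odd t.den) : ∃ y, IsPow y t := by
  set b := t.den with hb
  set u := (-t.num).toNat with hu
  set v := t.num.toNat with hv
  have hc : ∀ m : ℕ, ∃ c : ℕ, b * c + u ≡ v [MOD 2 ^ (m + 1)] := by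
    intro m
    have hcop : Nat.Coprime b (2 ^ (m + 1)) := (Nat.coprime_two_right.2 ht).pow_right _
    obtain ⟨w, hw⟩ : ∃ w, b * w ≡ 1 [MOD 2 ^ (m + 1)] := by
      obtain ⟨w, -, hw⟩ := Nat.exists_mul_mod_eq_one_of_coprime hcop (Nat.one_lt_two_pow (by omega))
      refine ⟨w, ?_⟩
      unfold Nat.ModEq
      rw [hw, Nat.mod_eq_of_lt (Nat.one_lt_two_pow (by omega))]
    refine ⟨w * (v + (2 ^ (m + 1) - 1) * u), ?_⟩
    have h1 : b * (w * (v + (2 ^ (m + 1) - 1) * u)) + u ≡
        1 * (v + (2 ^ (m + 1) - 1) * u) + u [MOD 2 ^ (m + 1)] := by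
      rw [← mul_assoc]
      exact Nat.ModEq.add_right u (Nat.ModEq.mul_right _ hw)
    refine h1.trans ?_
    have h2 : 1 * (v + (2 ^ (m + 1) - 1) * u) + u = v + 2 ^ (m + 1) * u := by
      obtain ⟨p, hp⟩ : ∃ p, 2 ^ (m + 1) = p + 1 :=
        ⟨2 ^ (m + 1) - 1, by have := Nat.one_le_two_pow (n := m + 1); omega⟩
      rw [hp, Nat.add_sub_cancel]
      ring
    rw [h2]
    unfold Nat.ModEq
    rw [Nat.add_mul_mod_self_left]
  choose c hc using hc
  refine ⟨PowerSeries.mk fun m => coeff m (P ^ c m), b, u, v, t.den_pos, ?_, ?_⟩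
  · have h1 : ((v : ℤ) : ℚ) - ((u : ℤ) : ℚ) = t.num := by
      have h2 : (v : ℤ) - u = t.num := by omega
      rw [← Int.cast_sub, h2]
    have h3 : (v : ℚ) - u = t.num := by
      rw [← h1]
      push_cast
      rfl
    rw [h3]
    exact t.num_div_den.symm
  · set y : S := PowerSeries.mk fun m => coeff m (P ^ c m) with hy
    have key : ∀ N : ℕ, (X : S) ^ (N + 1) ∣ y ^ b * P ^ u - P ^ v := by
      intro N
      have h1 : (X : S) ^ (N + 1) ∣ y - P ^ c N := by
        rw [PowerSeries.X_pow_dvd_iff]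
        intro m hm
        have h2 : c N ≡ c m [MOD 2 ^ (m + 1)] := by
          have h3 : b * c N + u ≡ b * c m + u [MOD 2 ^ (m + 1)] :=
            (Nat.ModEq.of_dvd (pow_dvd_pow 2 (by omega)) (hc N)).trans (hc m).symm
          have h4 := Nat.ModEq.add_right_cancel' u h3
          exact Nat.ModEq.cancel_left_of_coprime
            (((Nat.coprime_two_right.2 ht).pow_right (m + 1)).symm) h4
        have h5 := P_pow_dvd (m + 1) h2
        rw [PowerSeries.X_pow_dvd_iff] at h5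
        have h6 := h5 m (lt_trans (Nat.lt_succ_self m) (Nat.lt_two_pow_self))
        rw [map_sub, hy, coeff_mk, ← map_sub]
        exact h6
      have h7 : (X : S) ^ (N + 1) ∣ y ^ b - (P ^ c N) ^ b := h1.trans (sub_dvd_pow_sub_pow _ _ _)
      have h8 : (X : S) ^ (N + 1) ∣ P ^ (b * c N + u) - P ^ v :=
        (pow_dvd_pow X (Nat.lt_two_pow_self (n := N + 1)).le).trans (P_pow_dvd (N + 1) (hc N).symm)
      have h9 : y ^ b * P ^ u - P ^ v =
          (y ^ b - (P ^ c N) ^ b) * P ^ u + (P ^ (b * c N + u) - P ^ v) := by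
        rw [pow_add, mul_comm b (c N), pow_mul]
        ring
      rw [h9]
      exact dvd_add (Dvd.dvd.mul_right h7 _) h8
    have h10 : y ^ b * P ^ u - P ^ v = 0 := by
      ext n
      have h11 := key n
      rw [PowerSeries.X_pow_dvd_iff] at h11
      rw [map_zero]
      exact h11 n (Nat.lt_succ_self n)
    exact sub_eq_zero.1 h10

theorem const_of_isPow {y : S} {t : ℚ} (h : IsPow y t) : constantCoeff y = 1 := by
  obtain ⟨b, u, v, hb, -, h1⟩ := h
  have h2 := congrArg constantCoeff h1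
  rw [map_mul, map_pow, map_pow, map_pow, constP, one_pow, one_pow, mul_one] at h2
  rcases (by decide : ∀ r : ZMod 2, r = 0 ∨ r = 1) (constantCoeff y) with h3 | h3
  · rw [h3, zero_pow hb.ne'] at h2
    exact absurd h2 zero_ne_one
  · exact h3

theorem pow_inj_S {y y' : S} (hy : constantCoeff y = 1) (hy' : constantCoeff y' = 1) {n : ℕ}
    (hn : n ≠ 0) (h : y ^ n = y' ^ n) : y = y' := by
  obtain ⟨k, m, hm, rfl⟩ := Nat.exists_eq_two_pow_mul_odd hn
  have h1 : y ^ m = y' ^ m := by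
    have h2 : (y ^ m - y' ^ m) ^ 2 ^ k = 0 := by
      rw [sub_pow_two_pow, ← pow_mul, ← pow_mul, mul_comm m, h, sub_self]
    exact sub_eq_zero.1 ((pow_eq_zero_iff (pow_ne_zero k two_ne_zero)).1 h2)
  have h3 : (∑ i ∈ Finset.range m, y ^ i * y' ^ (m - 1 - i)) * (y - y') = 0 := by
    rw [(Commute.all y y').geom_sum₂_mul, h1, sub_self]
  rcases mul_eq_zero.1 h3 with h4 | h4
  · exfalso
    have h5 := congrArg constantCoeff h4
    rw [map_sum, map_zero] at h5
    have h6 : ∀ i ∈ Finset.range m, constantCoeff (y ^ i * y' ^ (m - 1 - i)) = 1 := by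
      intro i _
      rw [map_mul, map_pow, map_pow, hy, hy', one_pow, one_pow, one_mul]
    rw [Finset.sum_congr rfl h6, Finset.sum_const, Finset.card_range, nsmul_eq_mul, mul_one,
      ZMod.natCast_eq_zero_iff] at h5
    exact (Nat.not_even_iff_odd.2 hm) (even_iff_two_dvd.2 h5)
  · exact sub_eq_zero.1 h4

theorem pow_unique {y y' : S} {t : ℚ} (h : IsPow y t) (h' : IsPow y' t) : y = y' := by
  have hc := const_of_isPow h
  have hc' := const_of_isPow h'
  obtain ⟨b, u, v, hb, ht, h1⟩ := h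
  obtain ⟨b', u', v', hb', ht', h1'⟩ := h'
  have h2 : v * b' + u' * b = v' * b + u * b' := by
    have hbq : (b : ℚ) ≠ 0 := by exact_mod_cast hb.ne'
    have hbq' : (b' : ℚ) ≠ 0 := by exact_mod_cast hb'.ne'
    rw [ht] at ht'
    rw [div_eq_div_iff hbq hbq'] at ht'
    have h3 : (v : ℚ) * b' + u' * b = v' * b + u * b' := by linear_combination ht'
    exact_mod_cast h3
  refine pow_inj_S hc hc' (n := b * b') (Nat.mul_pos hb hb').ne' ?_
  have h4 : y ^ (b * b') * (P ^ (u * b') * P ^ (u' * b)) =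
      y' ^ (b * b') * (P ^ (u * b') * P ^ (u' * b)) := by
    have e1 : y ^ (b * b') * P ^ (u * b') = P ^ (v * b') := by
      rw [pow_mul, pow_mul, ← mul_pow, h1, ← pow_mul]
    have e2 : y' ^ (b * b') * P ^ (u' * b) = P ^ (v' * b) := by
      rw [mul_comm b b', pow_mul, pow_mul, ← mul_pow, h1', ← pow_mul]
    calc y ^ (b * b') * (P ^ (u * b') * P ^ (u' * b)) =
        (y ^ (b * b') * P ^ (u * b')) * P ^ (u' * b) := by ring
      _ = P ^ (v * b' + u' * b) := by rw [e1, pow_add]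
      _ = P ^ (v' * b) * P ^ (u * b') := by rw [h2, pow_add]
      _ = y' ^ (b * b') * (P ^ (u * b') * P ^ (u' * b)) := by rw [← e2]; ring
  exact mul_right_cancel₀ (mul_ne_zero (pow_ne_zero _ P_ne) (pow_ne_zero _ P_ne)) h4

/-- algebraic elements -/
theorem cl_of_alg {s : Set S} {T : Set Lk} (hT : ∀ x ∈ s, T5.jj x ∈ QE2.cl (ZMod 2) T) {y : S}
    (h : IsAlgebraic (Algebra.adjoin (ZMod 2) s) y) : T5.jj y ∈ QE2.cl (ZMod 2) T := by
  obtain ⟨p, hp, he⟩ := h
  have hadj : ∀ a ∈ Algebra.adjoin (ZMod 2) s, T5.jj a ∈ QE2.cl (ZMod 2) T := by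
    intro a ha
    induction ha using Algebra.adjoin_induction with
    | mem x hx' => exact hT x hx'
    | algebraMap r =>
      rcases (by decide : ∀ r : ZMod 2, r = 0 ∨ r = 1) r with rfl | rfl
      · rw [map_zero, map_zero]; exact cl_zero
      · rw [map_one, map_one]; exact cl_one
    | add x y _ _ hx hy => rw [map_add]; exact cl_add hx hy
    | mul x y _ _ hx hy => rw [map_mul]; exact QE2.mul_mem' hx hy
  set φ : Algebra.adjoin (ZMod 2) s →+* Lk :=
    T5.jj.toRingHom.comp (Algebra.adjoin (ZMod 2) s).val.toRingHom with hφ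
  have hinj : Function.Injective φ := by
    intro a b hab
    exact Subtype.ext (T5.jj_inj hab)
  refine cl_root (p.map φ) ((Polynomial.map_ne_zero_iff hinj).2 hp) (fun n => ?_) ?_
  · rw [Polynomial.coeff_map]
    exact hadj _ (p.coeff n).2
  · rw [Polynomial.eval_map]
    have h1 := congrArg T5.jj.toRingHom he
    rw [map_zero] at h1
    rw [← h1, Polynomial.aeval_def, Polynomial.hom_eval₂]
    rfl

end Pool.Agent.Run7.h363.PA
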