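import Pool.Agent.Run7.h363.PA.Gr5

set_option autoImplicit false

/-!
# Rational powers of the partition generating function
-/

namespace Pool.Agent.Run7.h363.PA

open PowerSeries Pool.Agent.TH693.PP Pool.Agent.TH693.QQ Pool.Agent.H397R2.PP Pool.Agent.Y627.PT
open Pool.Agent.Y517.PT (cl_map cl_comap Om Kc mem_Kc eq_zero_of_root)

/-- `y = P ^ t` -/
def IsPow (y : S) (t : ℚ) : Prop :=
  ∃ b u v : ℕ, 0 < b ∧ t = ((v : ℚ) - u) / b ∧ y ^ b * P ^ u = P ^ v

theorem jjP_ne : T5.jj P ≠ 0 := by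
  rw [Ne, map_eq_zero_iff T5.jj T5.jj_inj]
  exact P_ne

theorem pow_mem {y : S} {t : ℚ} (h : IsPow y t) : T5.jj y ∈ KF := by
  obtain ⟨b, u, v, hb, -, h1⟩ := h
  apply QE2.of_pow_mem hb
  have h2 : T5.jj y ^ b = T5.jj P ^ v * (T5.jj P ^ u)⁻¹ := by
    rw [← map_pow, ← map_pow, ← map_pow, ← h1, map_mul, mul_assoc, mul_inv_cancel₀, mul_one]
    rw [map_pow]
    exact pow_ne_zero _ jjP_ne
  rw [h2]
  exact KF.mul_mem (KF.pow_mem P_mem v) (KF.inv_mem (KF.pow_mem P_mem u))

theorem lin_frac {k l : ℕ} (y : Fin k → S) (t : Fin k → ℚ) (hy : ∀ j, IsPow (y j) (t j))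
    (ht0 : ∀ j, t j ≠ 0) (htd : Function.Injective t) (h : Fin l → S)
    (hh : ∀ z, T5.jj (h z) ∈ QE2.cl (ZMod 2) {T5.jj X}) (a : Fin k → F) (a' : Fin l → F) (b : F)
    (hrel : ∑ j, io (a j) * y j + (∑ z, io (a' z) * h z + io b) = 0) (j0 : Fin k) : a j0 = 0 := by
  classical
  set e := Pool.Agent.Y517.PT.e with he
  have hinj : Function.Injective e := e.toRingHom.injective
  choose bb u v hb ht hrel1 using hy
  set B : ℕ := ∏ j, bb j with hB
  have hB0 : 0 < B := Finset.prod_pos fun j _ => hb j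
  obtain ⟨zeta, hz⟩ : ∃ z : Om, z ^ B = e (T5.jj P) := IsAlgClosed.exists_pow_nat_eq _ hB0
  have hz0 : zeta ≠ 0 := by
    rintro rfl
    rw [zero_pow hB0.ne'] at hz
    exact jjP_ne ((map_eq_zero e.toRingHom).1 hz.symm)
  have hzK : zeta ∉ QE2.cl (ZMod 2) {e (T5.jj X)} := by
    intro h1
    apply P_trans
    apply T5.algX_of_mem
    apply cl_comap e
    rw [← hz]
    exact QE2.pow_mem' h1 B
  choose q hq using fun j => Finset.dvd_prod_of_mem bb (Finset.mem_univ j)
  have hqB : ∀ j, B = bb j * q j := hq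
  set n : Fin k → ℤ := fun j => ((v j : ℤ) - u j) * q j with hn
  have hnt : ∀ j, (n j : ℚ) = t j * B := by
    intro j
    have h1 : (bb j : ℚ) ≠ 0 := by exact_mod_cast (hb j).ne'
    have h2 : (B : ℚ) = bb j * q j := by exact_mod_cast hqB j
    rw [ht, h2, hn]
    push_cast
    field_simp
  have hBq : (B : ℚ) ≠ 0 := by exact_mod_cast hB0.ne'
  have hn0 : ∀ j, n j ≠ 0 := by
    intro j h1
    have h2 := hnt j
    rw [h1, Int.cast_zero] at h2
    rcases mul_eq_zero.1 h2.symm with h3 | h3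
    · exact ht0 j h3
    · exact hBq h3
  have hninj : ∀ j j', n j = n j' → j = j' := by
    intro j j' h1
    apply htd
    have h2 := hnt j
    rw [h1, hnt j'] at h2
    exact (mul_right_cancel₀ hBq h2).symm
  set om : Fin k → Om := fun j => e (T5.jj (y j)) * zeta ^ (-(n j)) with hom
  have homK : ∀ j, om j ∈ QE2.cl (ZMod 2) {e (T5.jj X)} ∧ om j ≠ 0 := by
    intro j
    have h1 : om j ^ bb j = 1 := by
      have h2 : e (T5.jj (y j)) ^ bb j * e (T5.jj P) ^ u j = e (T5.jj P) ^ v j := by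
        rw [← map_pow, ← map_pow, ← map_pow, ← map_pow, ← map_pow, ← map_pow, ← map_mul,
          ← map_mul, hrel1]
      have hP0 : e (T5.jj P) ≠ 0 := by
        rw [← hz]
        exact pow_ne_zero _ hz0
      have h3 : (zeta ^ (-(n j))) ^ bb j = e (T5.jj P) ^ (-((v j : ℤ) - u j)) := by
        rw [← hz, ← zpow_natCast (zeta ^ (-(n j))), ← zpow_mul, ← zpow_natCast zeta B, ← zpow_mul]
        congr 1
        rw [hn]
        simp only
        have h4 : (B : ℤ) = bb j * q j := by exact_mod_cast hqB j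
        rw [h4]
        ring
      rw [hom]
      simp only
      rw [mul_pow, h3, neg_sub, zpow_sub₀ hP0, zpow_natCast, zpow_natCast, mul_div_assoc', h2,
        div_self (pow_ne_zero _ hP0)]
    constructor
    · apply QE2.of_pow_mem (hb j)
      rw [h1]
      exact cl_one
    · intro h2
      rw [h2, zero_pow (hb j).ne'] at h1
      exact zero_ne_one h1
  have hyom : ∀ j, e (T5.jj (y j)) = om j * zeta ^ (n j) := by
    intro j
    rw [hom]
    simp only
    rw [mul_assoc, ← zpow_add₀ hz0, neg_add_cancel, zpow_zero, mul_one]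
  obtain ⟨k0, hk0⟩ : ∃ k0 : ℕ, ∀ j, 0 ≤ (k0 : ℤ) + n j := by
    refine ⟨∑ j, (n j).natAbs, fun j => ?_⟩
    have h1 : (n j).natAbs ≤ ∑ j, (n j).natAbs :=
      Finset.single_le_sum (f := fun j => (n j).natAbs) (fun _ _ => Nat.zero_le _)
        (Finset.mem_univ j)
    omega
  set m : Fin k → ℕ := fun j => ((k0 : ℤ) + n j).toNat with hm
  have hmz : ∀ j, (m j : ℤ) = (k0 : ℤ) + n j := fun j => Int.toNat_of_nonneg (hk0 j)
  -- coefficients
  have hio : ∀ f : F, e (T5.jj (io f)) ∈ QE2.cl (ZMod 2) {e (T5.jj X)} := by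
    intro f
    apply cl_map e
    induction f using Polynomial.induction_on with
    | C a =>
      rw [QE2.io_C]
      rcases (by decide : ∀ r : ZMod 2, r = 0 ∨ r = 1) a with rfl | rfl
      · rw [map_zero, map_zero]; exact cl_zero
      · rw [map_one, map_one]; exact cl_one
    | add p q hp hq => rw [map_add, map_add]; exact cl_add hp hq
    | monomial n a _ =>
      rw [map_mul, map_pow, QE2.io_X, QE2.io_C, map_mul, map_pow]
      refine QE2.mul_mem' ?_ (QE2.pow_mem' (QE2.self_mem (Set.mem_singleton _)) _)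
      rcases (by decide : ∀ r : ZMod 2, r = 0 ∨ r = 1) a with rfl | rfl
      · rw [map_zero, map_zero]; exact cl_zero
      · rw [map_one, map_one]; exact cl_one
  set R : Om := ∑ z, e (T5.jj (io (a' z) * h z)) + e (T5.jj (io b)) with hR
  have hRK : R ∈ clF (ZMod 2) {e (T5.jj X)} := by
    refine Subfield.add_mem _ (Subfield.sum_mem _ fun z _ => ?_) (hio b)
    rw [map_mul, map_mul]
    exact Subfield.mul_mem _ (hio _) (cl_map e (hh z))
  set Q : Polynomial Om := ∑ j, Polynomial.C (e (T5.jj (io (a j))) * om j) *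
    Polynomial.X ^ m j + Polynomial.C R * Polynomial.X ^ k0 with hQ
  have hQK : ∀ i, Q.coeff i ∈ QE2.cl (ZMod 2) {e (T5.jj X)} := by
    intro i
    have h1 : Q.coeff i ∈ clF (ZMod 2) {e (T5.jj X)} := by
      rw [hQ, Polynomial.coeff_add, Polynomial.finsetSum_coeff]
      refine Subfield.add_mem _ (Subfield.sum_mem _ fun j _ => ?_) ?_
      · rw [Polynomial.coeff_C_mul, Polynomial.coeff_X_pow]
        refine Subfield.mul_mem _ (Subfield.mul_mem _ (hio _) (homK j).1) ?_
        split_ifs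
        · exact Subfield.one_mem _
        · exact Subfield.zero_mem _
      · rw [Polynomial.coeff_C_mul, Polynomial.coeff_X_pow]
        refine Subfield.mul_mem _ hRK ?_
        split_ifs
        · exact Subfield.one_mem _
        · exact Subfield.zero_mem _
    exact h1
  have hQ0 : Q = 0 := by
    apply eq_zero_of_root hzK Q hQK
    rw [hQ, Polynomial.eval_add, Polynomial.eval_finsetSum]
    have h1 : ∀ j, (Polynomial.C (e (T5.jj (io (a j))) * om j) * Polynomial.X ^ m j).eval zeta =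
        zeta ^ k0 * e (T5.jj (io (a j) * y j)) := by
      intro j
      rw [Polynomial.eval_mul, Polynomial.eval_C, Polynomial.eval_pow, Polynomial.eval_X, map_mul,
        map_mul, hyom, ← zpow_natCast zeta (m j), hmz, zpow_add₀ hz0, zpow_natCast]
      ring
    rw [Finset.sum_congr rfl (fun j _ => h1 j), ← Finset.mul_sum, Polynomial.eval_mul,
      Polynomial.eval_C, Polynomial.eval_pow, Polynomial.eval_X, mul_comm R, ← mul_add]
    have h2 := congrArg (fun s => e (T5.jj s)) hrel
    simp only [map_add, map_sum, map_zero] at h2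
    rw [hR, h2, mul_zero]
  have hc := congrArg (fun R : Polynomial Om => R.coeff (m j0)) hQ0
  simp only [Polynomial.coeff_zero] at hc
  rw [hQ, Polynomial.coeff_add, Polynomial.finsetSum_coeff, Finset.sum_eq_single j0,
    Polynomial.coeff_C_mul, Polynomial.coeff_X_pow, if_pos rfl, mul_one, Polynomial.coeff_C_mul,
    Polynomial.coeff_X_pow, if_neg, mul_zero, add_zero] at hc
  · have h1 := (mul_eq_zero.1 hc).resolve_right (homK j0).2
    have h2 : e (T5.jj (io (a j0))) = e (T5.jj (io 0)) := by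
      rw [h1, map_zero, map_zero, map_zero]
    exact QE2.io_inj (T5.jj_inj (hinj h2))
  · intro h1
    apply hn0 j0
    have := hmz j0
    omega
  · intro j _ hj
    rw [Polynomial.coeff_C_mul, Polynomial.coeff_X_pow, if_neg, mul_zero]
    intro h1
    apply hj
    apply hninj
    have q1 := hmz j0
    have q2 := hmz j
    omega
  · intro h1
    exact absurd (Finset.mem_univ _) h1

theorem frac {k l : ℕ} (y : Fin k → S) (t : Fin k → ℚ) (hy : ∀ j, IsPow (y j) (t j))
    (ht0 : ∀ j, t j ≠ 0) (htd : Function.Injective t) (h : Fin l → S)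
    (hh : ∀ z, T5.jj (h z) ∈ QE2.cl (ZMod 2) {T5.jj X}) :
    ∃ C : ℕ, ∀ (K : ℕ) (c : Fin k → ℕ → ZMod 2) (d : Fin l → ℕ → ZMod 2),
      (∃ j, ∃ i < K, c j i ≠ 0) → ∀ (κ : ZMod 2) (A : ℕ), ∃ n, A ≤ n ∧ n ≤ C * (A + K) ∧
        ∑ j, ∑ i ∈ Finset.range K, c j i * coeff (n + i) (y j) +
          ∑ z, ∑ i ∈ Finset.range K, d z i * coeff (n + i) (h z) = κ := by
  classical
  obtain ⟨C, hC⟩ := pat_act (Sum.elim y h) 1 one_pos (fun j => ∃ x, j = Sum.inl x)
    (lf Pool.Agent.Y38.PT6.clo mtDb _ fun j => by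
      rw [proj_one]
      apply T5.algOver_of_mem
      rcases j.1 with x | z
      · exact pow_mem (hy x)
      · exact QE2.cl_mono (by simp) (hh z)) (by
      rintro a b h1 _ ⟨x, rfl⟩ r _
      have h2 : ∑ j, io (a (Sum.inl j, r)) * y j +
          (∑ z, io (a (Sum.inr z, r)) * h z + io b) = 0 := by
        rw [← h1, Fintype.sum_prod_type, Fintype.sum_sum_type, add_assoc]
        have hr : ∀ r' : Fin 1, r' = r := fun r' => Subsingleton.elim _ _
        have e1 : ∀ g : Fin 1 → S, ∑ r', g r' = g r := by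
          intro g
          rw [Fintype.sum_unique]
          congr 1
          exact Subsingleton.elim _ _
        congr 1
        · refine Finset.sum_congr rfl fun j _ => ?_
          rw [e1, proj_one]
          rfl
        · congr 1
          refine Finset.sum_congr rfl fun j _ => ?_
          rw [e1, proj_one]
          rfl
      exact lin_frac y t hy ht0 htd h hh _ _ b h2 x)
  refine ⟨C, fun K c d hc κ A => ?_⟩
  obtain ⟨j, i, hi, hci⟩ := hc
  obtain ⟨L, rfl⟩ : ∃ L, K = L + 1 := ⟨K - 1, by omega⟩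
  have hyj : y j ≠ 0 := by
    intro h0
    obtain ⟨b, u, v, hb, -, h1⟩ := hy j
    rw [h0, zero_pow hb.ne', zero_mul] at h1
    exact pow_ne_zero _ P_ne h1.symm
  obtain ⟨n, h1, h2, -, h3⟩ := hC L (Sum.elim (fun j i => c j i) (fun z i => d z i)) 0
    ⟨Sum.inl j, ⟨i, hi⟩, ⟨j, rfl⟩, hci, by rw [proj_one]; exact hyj⟩ κ A
  refine ⟨n, h1, h2, ?_⟩
  rw [← h3, Fintype.sum_sum_type]
  simp only [Finset.sum_range, Sum.elim_inl, Sum.elim_inr]

end Pool.Agent.Run7.h363.PA
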