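import Pool.Agent.Run7.h363.PA.Cl4

set_option autoImplicit false

/-!
# The algebraic closure `K0` of `F_2(D)`: `K0 = K0 ^ 2 + D K0 ^ 2`
-/

namespace Pool.Agent.Run7.h363.PA

open PowerSeries Pool.Agent.TH693.PP Pool.Agent.TH693.QQ Pool.Agent.H397R2.PP Pool.Agent.Y627.PT
open Pool.Agent.Y517.PT (cl_map)

/-- the field of functions algebraic over `F_2(D)` -/
noncomputable abbrev K0 : Subfield Lk := clF (ZMod 2) {T5.jj Db}

/-- the element `D` -/
noncomputable abbrev dd : Lk := T5.jj Db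

theorem dd_mem0 : dd ∈ K0 := QE2.self_mem (Set.mem_singleton _)

/-- the element `E ^ 12` -/
noncomputable abbrev ee : Lk := T5.jj (E ^ 12)

theorem ee_ne : ee ≠ 0 := by
  rw [Ne, map_eq_zero_iff T5.jj T5.jj_inj]
  apply pow_ne_zero
  intro h
  have := constE
  rw [h, map_zero] at this
  exact zero_ne_one this

theorem dd_eq : dd = xx * ee ^ 2 := by
  have hD : Db = X * (E ^ 12) ^ 2 := by
    rw [← pow_mul]
    rfl
  change T5.jj Db = T5.jj X * T5.jj (E ^ 12) ^ 2
  rw [← map_pow, ← map_mul, ← hD]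

theorem dd_uniq {a b c d : Lk} (h : a ^ 2 + dd * b ^ 2 = c ^ 2 + dd * d ^ 2) : a = c ∧ b = d := by
  have h1 : a ^ 2 + xx * (ee * b) ^ 2 = c ^ 2 + xx * (ee * d) ^ 2 := by
    rw [dd_eq] at h
    linear_combination h
  obtain ⟨h2, h3⟩ := sq_uniq h1
  exact ⟨h2, mul_left_cancel₀ ee_ne h3⟩

/-- the field of the `a ^ 2 + D b ^ 2`, `a, b ∈ T`, in `T` -/
noncomputable def nx0 (T : {T : Subfield Lk // dd ∈ T}) : {T : Subfield Lk // dd ∈ T} where
  val :=
    { carrier := {z | z ∈ T.1 ∧ ∃ a ∈ T.1, ∃ b ∈ T.1, z = a ^ 2 + dd * b ^ 2}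
      mul_mem' := by
        rintro y z ⟨hy, a, ha, b, hb, rfl⟩ ⟨hz, c, hc, d, hd, rfl⟩
        refine ⟨T.1.mul_mem hy hz, a * c + dd * (b * d), T.1.add_mem (T.1.mul_mem ha hc)
          (T.1.mul_mem T.2 (T.1.mul_mem hb hd)), a * d + b * c,
          T.1.add_mem (T.1.mul_mem ha hd) (T.1.mul_mem hb hc), ?_⟩
        linear_combination (-(a * c * dd * b * d) - dd * a * d * b * c) * two_Lk
      one_mem' := ⟨T.1.one_mem, 1, T.1.one_mem, 0, T.1.zero_mem, by ring⟩
      add_mem' := by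
        rintro y z ⟨hy, a, ha, b, hb, rfl⟩ ⟨hz, c, hc, d, hd, rfl⟩
        refine ⟨T.1.add_mem hy hz, a + c, T.1.add_mem ha hc, b + d, T.1.add_mem hb hd, ?_⟩
        linear_combination (-(a * c) - dd * b * d) * two_Lk
      zero_mem' := ⟨T.1.zero_mem, 0, T.1.zero_mem, 0, T.1.zero_mem, by ring⟩
      neg_mem' := by
        rintro y ⟨hy, a, ha, b, hb, rfl⟩
        refine ⟨T.1.neg_mem hy, a, ha, b, hb, ?_⟩
        linear_combination (-(a ^ 2) - dd * b ^ 2) * two_Lk
      inv_mem' := by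
        rintro y ⟨hy, a, ha, b, hb, hab⟩
        refine ⟨T.1.inv_mem hy, a * y⁻¹, T.1.mul_mem ha (T.1.inv_mem hy), b * y⁻¹,
          T.1.mul_mem hb (T.1.inv_mem hy), ?_⟩
        by_cases h0 : y = 0
        · rw [h0]; simp
        · have h1 : (a * y⁻¹) ^ 2 + dd * (b * y⁻¹) ^ 2 = (a ^ 2 + dd * b ^ 2) * (y⁻¹) ^ 2 := by ring
          rw [h1, ← hab]
          field_simp }
  property := ⟨T.2, 0, T.1.zero_mem, 1, T.1.one_mem, by ring⟩

/-- the sequence of fields -/
noncomputable def Un : ℕ → {T : Subfield Lk // dd ∈ T}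
  | 0 => ⟨K0, dd_mem0⟩
  | n + 1 => nx0 (Un n)

theorem mem_Un_succ {n : ℕ} {z : Lk} : z ∈ (Un (n + 1)).1 ↔
    z ∈ (Un n).1 ∧ ∃ a ∈ (Un n).1, ∃ b ∈ (Un n).1, z = a ^ 2 + dd * b ^ 2 := Iff.rfl

theorem pow_mem_Un {z : Lk} (h : z ∈ K0) (n : ℕ) : z ^ 2 ^ n ∈ (Un n).1 := by
  induction n with
  | zero => rw [pow_zero, pow_one]; exact h
  | succ n ih =>
    rw [mem_Un_succ]
    have h1 : z ^ 2 ^ (n + 1) = (z ^ 2 ^ n) ^ 2 := by rw [← pow_mul, pow_succ]
    rw [h1]
    exact ⟨(Un n).1.pow_mem ih 2, _, ih, 0, (Un n).1.zero_mem, by ring⟩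

theorem descend0 {n : ℕ} {w : Lk} (h : w ^ 2 ∈ (Un (n + 1)).1) : w ∈ (Un n).1 := by
  obtain ⟨-, a, ha, b, hb, hab⟩ := mem_Un_succ.1 h
  have h1 : w ^ 2 + dd * 0 ^ 2 = a ^ 2 + dd * b ^ 2 := by rw [← hab]; ring
  rw [(dd_uniq h1).1]
  exact ha

theorem descend0' {n j : ℕ} {w : Lk} (h : w ^ 2 ^ j ∈ (Un (n + j)).1) : w ∈ (Un n).1 := by
  induction j generalizing w with
  | zero => rwa [pow_zero, pow_one] at h
  | succ j ih =>
    apply ih
    have h1 : (w ^ 2 ^ j) ^ 2 ∈ (Un ((n + j) + 1)).1 := by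
      rw [← pow_mul, ← pow_succ]
      exact h
    exact descend0 h1

theorem mem_U1 {y : Lk} (hy : y ∈ K0) : y ∈ (Un 1).1 := by
  classical
  set B : Subfield Lk := ⨅ n, (Un n).1 with hB
  have hle : ∀ n, B ≤ (Un n).1 := fun n => iInf_le _ n
  have hd : dd ∈ B := by
    rw [hB, Subfield.mem_iInf]
    exact fun n => (Un n).2
  have hadj : ∀ a ∈ Algebra.adjoin (ZMod 2) {T5.jj Db}, a ∈ B := by
    intro a ha
    induction ha using Algebra.adjoin_induction with
    | mem x hx' =>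
      rw [Set.mem_singleton_iff.1 hx']
      exact hd
    | algebraMap r =>
      rcases (by decide : ∀ r : ZMod 2, r = 0 ∨ r = 1) r with rfl | rfl
      · rw [map_zero]; exact B.zero_mem
      · rw [map_one]; exact B.one_mem
    | add x y _ _ hx hy => exact B.add_mem hx hy
    | mul x y _ _ hx hy => exact B.mul_mem hx hy
  have halg : IsAlgebraic B y := by
    have h1 : IsAlgebraic (Algebra.adjoin (ZMod 2) {T5.jj Db}) y := QE2.mem_cl.1 hy
    let φ : Algebra.adjoin (ZMod 2) {T5.jj Db} →+* B :=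
      (Algebra.adjoin (ZMod 2) {T5.jj Db}).val.toRingHom.codRestrict B
        (fun a => hadj a a.2)
    exact IsAlgebraic.ringHom_of_comp_eq φ (RingHom.id Lk) h1 (by
      intro a b hab
      exact Subtype.ext (congrArg (fun t : B => (t : Lk)) hab)) (RingHom.ext fun _ => rfl)
  have hirr := minpoly.irreducible halg.isIntegral
  obtain ⟨n, g, hg, hexp⟩ := Polynomial.exists_separable_of_irreducible 2 hirr two_ne_zero
  have hgz : Polynomial.aeval (y ^ 2 ^ n) g = 0 := by
    rw [← Polynomial.expand_aeval, hexp]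
    exact minpoly.aeval B y
  have hz : y ^ 2 ^ n ∈ (Un (1 + n)).1 := by
    refine sep_in (Un (1 + n)).1 _ (1 + n) (pow_mem_Un (K0.pow_mem hy _) _)
      (g.map (Subfield.inclusion (hle (1 + n)))) hg.map ?_
    rw [Polynomial.aeval_def, Polynomial.eval₂_map]
    exact hgz
  exact descend0' hz

/-- sections modulo `M` -/
def SecM (M : ℕ) (g : S) (s : ℤ) : Prop := ∀ r : ℕ, AZ (T5.jj (proj M r g)) s

theorem secM_mul {M : ℕ} (hM : 0 < M) {f g : S} {s t : ℤ} (hf : SecM M f s) (hg : SecM M g t) :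
    SecM M (f * g) (s + t) := by
  intro r
  have h1 : proj M r (f * g) = ∑ a ∈ Finset.range M, ∑ b ∈ Finset.range M,
      (if (a + b) % M = r % M then proj M a f * proj M b g else 0) := by
    conv_lhs => rw [← sum_proj M hM f, ← sum_proj M hM g, Finset.sum_mul_sum]
    rw [proj_sum']
    refine Finset.sum_congr rfl fun a _ => ?_
    rw [proj_sum']
    exact Finset.sum_congr rfl fun b _ => proj_mul_proj M r a b f g
  rw [h1, map_sum]
  refine az_sum _ _ _ fun a _ => ?_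
  rw [map_sum]
  refine az_sum _ _ _ fun b _ => ?_
  split_ifs
  · rw [map_mul]
    exact az_mul (hf a) (hg b)
  · rw [map_zero]
    exact az_zero _

theorem az0_iff {f : Lk} : AZ f 0 ↔ f ∈ K0 := by
  constructor
  · intro h
    unfold AZ at h
    rw [neg_zero, zpow_zero, mul_one] at h
    exact QE2.of_pow_mem (by norm_num) h
  · exact fun h => az_cl h

theorem az_sq_inv {f : Lk} {s : ℤ} (h : AZ (f ^ 2) (2 * s)) : AZ f s := az_root two_pos (by exact_mod_cast h)

theorem two_power (k : ℕ) : ∀ f : S, T5.jj f ∈ K0 → SecM (2 ^ k) f 0 := by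
  induction k with
  | zero =>
    intro f hf r
    rw [pow_zero, proj_one, az0_iff]
    exact hf
  | succ k ih =>
    intro f hf r
    obtain ⟨a, b, rfl⟩ := split2 f
    obtain ⟨-, a', ha', b', hb', hab⟩ := mem_Un_succ.1 (mem_U1 hf)
    have h1 : T5.jj a ^ 2 + xx * T5.jj b ^ 2 = a' ^ 2 + xx * (ee * b') ^ 2 := by
      rw [map_add, map_mul, map_pow, map_pow] at hab
      rw [hab, dd_eq]
      ring
    obtain ⟨h2, h3⟩ := sq_uniq h1
    have ha : T5.jj a ∈ K0 := by rw [h2]; exact ha'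
    have hb : T5.jj (b * P ^ 12) ∈ K0 := by
      have h4 : T5.jj (b * P ^ 12) = b' := by
        rw [map_mul, h3]
        have h5 : ee * T5.jj (P ^ 12) = 1 := by
          rw [← map_mul, ← mul_pow, mul_comm E P, P_mul_E, one_pow, map_one]
        linear_combination b' * h5
      rw [h4]
      exact hb'
    have hbs : SecM (2 ^ k) b (-12) := by
      have h4 := secM_mul (by positivity) (ih _ hb)
        (fun r => sec_pow sec_E 12 (2 ^ k) r (by positivity))
      have h5 : b * P ^ 12 * E ^ 12 = b := by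
        rw [mul_assoc, ← mul_pow, P_mul_E, one_pow, mul_one]
      rw [h5] at h4
      convert h4 using 1
      norm_num
    rw [pow_succ, mul_comm (2 ^ k) 2]
    rcases Nat.even_or_odd' r with ⟨m, rfl | rfl⟩
    · rw [proj_even, map_pow]
      have h4 := az_pow (ih a ha m) 2
      rwa [mul_zero] at h4
    · rw [proj_odd, map_mul, map_pow]
      have h4 := az_mul (az_x 1) (az_pow (hbs m) 2)
      rw [pow_one] at h4
      convert h4 using 1
      norm_num

end Pool.Agent.Run7.h363.PA
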