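import Pool.Agent.Run7.h363.PA.Gr1

set_option autoImplicit false

/-!
# The classes `X ^ (s / N) K0` are closed under sections
-/

namespace Pool.Agent.Run7.h363.PA

open PowerSeries Pool.Agent.TH693.PP Pool.Agent.TH693.QQ Pool.Agent.H397R2.PP Pool.Agent.Y627.PT
open Pool.Agent.Y517.PT (cl_map cl_comap Om Kc mem_Kc)

/-- the substitution `X → u X` -/
noncomputable def fiL (u : kk) (hu : u ≠ 0) : Lk →ₐ[ZMod 2] Lk where
  toRingHom := IsLocalization.map (M := nonZeroDivisors Sk) (T := nonZeroDivisors Sk) Lk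
    (PowerSeries.rescale u)
    (nonZeroDivisors_le_comap_nonZeroDivisors_of_injective (PowerSeries.rescale u)
      (PowerSeries.rescale_injective hu))
  commutes' r := by
    exact congrArg (fun f : ZMod 2 →+* Lk => f r) (Subsingleton.elim
      ((IsLocalization.map (M := nonZeroDivisors Sk) (T := nonZeroDivisors Sk) Lk
        (PowerSeries.rescale u)
        (nonZeroDivisors_le_comap_nonZeroDivisors_of_injective (PowerSeries.rescale u)
          (PowerSeries.rescale_injective hu))).comp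
        (algebraMap (ZMod 2) Lk)) (algebraMap (ZMod 2) Lk))

theorem fiL_alg (u : kk) (hu : u ≠ 0) (s : Sk) :
    fiL u hu (algebraMap Sk Lk s) = algebraMap Sk Lk (PowerSeries.rescale u s) :=
  IsLocalization.map_eq (M := nonZeroDivisors Sk) (T := nonZeroDivisors Sk) (Q := Lk)
    (nonZeroDivisors_le_comap_nonZeroDivisors_of_injective (PowerSeries.rescale u)
      (PowerSeries.rescale_injective hu)) s

theorem fiL_jj (u : kk) (hu : u ≠ 0) (g : S) : fiL u hu (T5.jj g) = T4.fi u g := by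
  rw [T5.jj_apply, fiL_alg, T4.fi_apply]

theorem const_mem0 (u : kk) : algebraMap Sk Lk (C u) ∈ K0 := al_mem (T4.AL_const u)

/-- `f = X ^ (s / N)` times a function algebraic over `F_2(D)` -/
def AQ (N : ℕ) (f : Lk) (s : ℤ) : Prop := f ^ N * xx ^ (-s) ∈ K0

theorem az_iff_aq {f : Lk} {s : ℤ} : AZ f s ↔ AQ 24 f s := Iff.rfl

theorem aq_zero {N : ℕ} (hN : 0 < N) (s : ℤ) : AQ N 0 s := by
  unfold AQ
  rw [zero_pow hN.ne', zero_mul]
  exact K0.zero_mem

theorem aq_mul {N : ℕ} {f g : Lk} {s t : ℤ} (hf : AQ N f s) (hg : AQ N g t) :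
    AQ N (f * g) (s + t) := by
  have h := K0.mul_mem hf hg
  unfold AQ
  convert h using 1
  rw [mul_pow, neg_add, zpow_add₀ xx_ne]
  ring

theorem aq_pow {N : ℕ} {f : Lk} {s : ℤ} (hf : AQ N f s) (n : ℕ) : AQ N (f ^ n) (n * s) := by
  have h := K0.pow_mem hf n
  unfold AQ
  convert h using 1
  rw [mul_pow, ← pow_mul, ← pow_mul, mul_comm n N, ← zpow_natCast (xx ^ (-s)) n, ← zpow_mul]
  congr 2
  ring

/-- change of the denominator -/
theorem aq_scale {N : ℕ} {f : Lk} {s : ℤ} (hf : AQ N f s) (d : ℕ) : AQ (N * d) f (d * s) := by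
  have h := K0.pow_mem hf d
  unfold AQ
  convert h using 1
  rw [mul_pow, ← pow_mul, ← zpow_natCast (xx ^ (-s)) d, ← zpow_mul]
  congr 2
  ring

theorem aq_unscale {N : ℕ} {f : Lk} {s : ℤ} {d : ℕ} (hd : 0 < d) (hf : AQ (N * d) f (d * s)) :
    AQ N f s := by
  unfold AQ at hf ⊢
  apply QE2.of_pow_mem hd
  have h : (f ^ N * xx ^ (-s)) ^ d = f ^ (N * d) * xx ^ (-((d : ℤ) * s)) := by
    rw [mul_pow, ← pow_mul, ← zpow_natCast (xx ^ (-s)) d, ← zpow_mul]
    congr 2
    ring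
  rw [h]
  exact hf

/-- a power of `f` -/
theorem aq_of_pow {N : ℕ} {f : Lk} {s : ℤ} (d : ℕ) (hf : AQ N (f ^ d) s) : AQ (N * d) f s := by
  unfold AQ at hf ⊢
  rwa [mul_comm N d, pow_mul]

theorem aq_to_pow {N : ℕ} {f : Lk} {s : ℤ} (d : ℕ) (hf : AQ (N * d) f s) : AQ N (f ^ d) s := by
  unfold AQ at hf ⊢
  rwa [← pow_mul, mul_comm d N]

theorem aq_inv {N : ℕ} {f : Lk} {s : ℤ} (hf : AQ N f s) : AQ N f⁻¹ (-s) := by
  have h := K0.inv_mem hf
  unfold AQ
  convert h using 1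
  rw [mul_inv, inv_pow, zpow_neg]

theorem aq_add {N : ℕ} (hN : 0 < N) {f g : Lk} {s : ℤ} (hf : AQ N f s) (hg : AQ N g s) :
    AQ N (f + g) s := by
  obtain ⟨xi, hxi⟩ : ∃ xi : Om, xi ^ N = Pool.Agent.Y517.PT.e (T5.jj X) :=
    IsAlgClosed.exists_pow_nat_eq (Pool.Agent.Y517.PT.e (T5.jj X)) hN
  have key : ∀ w : Lk, (Pool.Agent.Y517.PT.e w * xi ^ (-s)) ^ N =
      Pool.Agent.Y517.PT.e (w ^ N * xx ^ (-s)) := by
    intro w
    rw [mul_pow, map_mul, map_pow, map_zpow₀, ← hxi, ← zpow_natCast (xi ^ (-s)) N, ← zpow_mul,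
      ← zpow_natCast xi N, ← zpow_mul, mul_comm (-s)]
  have h1 : ∀ w : Lk, AQ N w s → Pool.Agent.Y517.PT.e w * xi ^ (-s) ∈
      QE2.cl (ZMod 2) {Pool.Agent.Y517.PT.e (T5.jj Db)} := by
    intro w hw
    apply QE2.of_pow_mem (n := N) hN
    rw [key]
    exact cl_map _ hw
  have h2 : Pool.Agent.Y517.PT.e (f + g) * xi ^ (-s) ∈
      QE2.cl (ZMod 2) {Pool.Agent.Y517.PT.e (T5.jj Db)} := by
    rw [map_add, add_mul, ← mem_Kc]
    exact Subalgebra.add_mem _ (mem_Kc.2 (h1 f hf)) (mem_Kc.2 (h1 g hg))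
  unfold AQ
  apply cl_comap Pool.Agent.Y517.PT.e
  rw [← key]
  exact QE2.pow_mem' h2 N

theorem aq_sum {N : ℕ} (hN : 0 < N) {ι : Type} (A : Finset ι) (f : ι → Lk) (s : ℤ)
    (h : ∀ i ∈ A, AQ N (f i) s) : AQ N (∑ i ∈ A, f i) s := by
  classical
  induction A using Finset.induction_on with
  | empty => rw [Finset.sum_empty]; exact aq_zero hN s
  | insert i A hi ih =>
    rw [Finset.sum_insert hi]
    exact aq_add hN (h i (Finset.mem_insert_self i A))
      (ih fun j hj => h j (Finset.mem_insert_of_mem hj))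

theorem aq_const {N : ℕ} (a : kk) : AQ N (algebraMap Sk Lk (C a)) 0 := by
  unfold AQ
  rw [neg_zero, zpow_zero, mul_one]
  exact K0.pow_mem (const_mem0 a) N

theorem aq_fi {N m : ℕ} (hm : Odd m) {u : kk} (hu : u ^ m = 1) {g : S} {s : ℤ}
    (h : AQ N (T5.jj g) s) : AQ N (T4.fi u g) s := by
  have hu0 : u ≠ 0 := by
    rintro rfl
    rw [zero_pow (by rintro rfl; exact absurd hm (by decide))] at hu
    exact zero_ne_one hu
  have h1 : fiL u hu0 (T5.jj g ^ N * xx ^ (-s)) ∈ QE2.cl (ZMod 2) {fiL u hu0 (T5.jj Db)} :=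
    cl_map (fiL u hu0) h
  have h2 : fiL u hu0 (T5.jj g ^ N * xx ^ (-s)) ∈ K0 := by
    refine QE2.cl_cl (t := {T5.jj Db}) ?_ h1
    intro x hx
    rw [Set.mem_singleton_iff.1 hx, fiL_jj]
    exact al_mem (fi_D_mem hm hu)
  rw [map_mul, map_pow, map_zpow₀, fiL_jj, fiL_jj, T4.fi_X, ← T5.jj_X, mul_zpow] at h2
  have h3 := K0.mul_mem (K0.zpow_mem (const_mem0 u) s) h2
  have hc : algebraMap Sk Lk (C u) ≠ 0 := by
    rw [Ne, map_eq_zero_iff _ (IsFractionRing.injective Sk Lk)]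
    intro h
    apply hu0
    have := congrArg constantCoeff h
    rwa [PowerSeries.constantCoeff_C, map_zero] at this
  unfold AQ
  convert h3 using 1
  rw [zpow_neg (algebraMap Sk Lk (C u)), zpow_neg xx]
  have := zpow_ne_zero s hc
  have := zpow_ne_zero s xx_ne
  field_simp

/-- from powers of two to all moduli -/
theorem all_M {N : ℕ} (hN : 0 < N) {f : S} {s : ℤ}
    (h : ∀ k r : ℕ, AQ N (T5.jj (proj (2 ^ k) r f)) s) (M r : ℕ) (hM : 0 < M) :
    AQ N (T5.jj (proj M r f)) s := by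
  obtain ⟨k, m, hm, rfl⟩ := Nat.exists_eq_two_pow_mul_odd hM.ne'
  have hne : NeZero ((m : ℕ) : ZMod 2) := ⟨by
    rw [Ne, ZMod.natCast_eq_zero_iff]
    exact fun h => (Nat.not_even_iff_odd.2 hm) (even_iff_two_dvd.2 h)⟩
  obtain ⟨z, hz⟩ := HasEnoughRootsOfUnity.exists_primitiveRoot kk m
  have hzi : ∀ i, (z ^ i) ^ m = 1 := fun i => by
    rw [← pow_mul, mul_comm, pow_mul, hz.pow_eq_one, one_pow]
  rw [T5.jj_apply, T4.proj_sum k m r hm z hz f, map_sum]
  refine aq_sum hN _ _ _ fun i _ => ?_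
  rw [map_mul, ← T4.fi_apply]
  have := aq_mul (aq_const (N := N) (((z ^ i) ^ r)⁻¹)) (aq_fi hm (hzi i) (h k r))
  rwa [zero_add] at this

/-- class 0 -/
theorem sec_zero {f : S} (hf : T5.jj f ∈ K0) : Sec f 0 := fun M r hM =>
  all_M (N := 24) (by norm_num) (fun k r => two_power k f hf r) M r hM

theorem az_E : AZ (T5.jj E) (-1) := by
  have := sec_E 1 0 one_pos
  rwa [proj_one] at this

theorem az_P : AZ (T5.jj P) 1 := by
  have := sec_P 1 0 one_pos
  rwa [proj_one] at this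

/-- all classes in `(1 / 24) Z` -/
theorem sec_all {f : S} {s : ℤ} (hf : AZ (T5.jj f) s) : Sec f s := by
  rcases Int.eq_nat_or_neg s with ⟨n, rfl | rfl⟩
  · have h1 : T5.jj (f * E ^ n) ∈ K0 := by
      rw [← az0_iff, map_mul, map_pow]
      have := az_mul hf (az_pow az_E n)
      convert this using 1
      ring
    have h2 := sec_mul (sec_zero h1) (sec_pow sec_P n)
    have h3 : f * E ^ n * P ^ n = f := by
      rw [mul_assoc, ← mul_pow, mul_comm E P, P_mul_E, one_pow, mul_one]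
    rw [h3] at h2
    convert h2 using 1
    ring
  · have h1 : T5.jj (f * P ^ n) ∈ K0 := by
      rw [← az0_iff, map_mul, map_pow]
      have := az_mul hf (az_pow az_P n)
      convert this using 1
      ring
    have h2 := sec_mul (sec_zero h1) (sec_pow sec_E n)
    have h3 : f * P ^ n * E ^ n = f := by
      rw [mul_assoc, ← mul_pow, P_mul_E, one_pow, mul_one]
    rw [h3] at h2
    convert h2 using 1
    ring

end Pool.Agent.Run7.h363.PA
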