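import Pool.Agent.Run7.h363.PA.Gr2

set_option autoImplicit false

/-!
# Sections of functions with rational exponents
-/

namespace Pool.Agent.Run7.h363.PA

open PowerSeries Pool.Agent.TH693.PP Pool.Agent.TH693.QQ Pool.Agent.H397R2.PP Pool.Agent.Y627.PT

theorem proj_pow_self (k e : ℕ) (hke : k ≤ e) (f : S) :
    proj (2 ^ k) 0 (f ^ 2 ^ e) = f ^ 2 ^ e := by
  obtain ⟨l, rfl⟩ := Nat.exists_eq_add_of_le hke
  have h1 : f ^ 2 ^ (k + l) = PowerSeries.expand (2 ^ k) (by positivity) (f ^ 2 ^ l) := by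
    rw [← pow_two_expand, ← pow_mul, pow_add, mul_comm]
  rw [h1]
  ext n
  rw [proj, coeff_mk, PowerSeries.coeff_expand]
  by_cases h2 : 2 ^ k ∣ n
  · rw [if_pos h2, Nat.zero_mod, if_pos (Nat.mod_eq_zero_of_dvd h2)]
  · rw [if_neg h2]
    split_ifs <;> rfl

theorem secQ_unit {b : ℕ} (hb : Odd b) {f : S} (hu : constantCoeff f ≠ 0) {s : ℤ}
    (h : AQ (24 * b) (T5.jj f) s) (M r : ℕ) (hM : 0 < M) :
    AQ (24 * b) (T5.jj (proj M r f)) s := by
  have hbp : 0 < b := hb.pos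
  refine all_M (N := 24 * b) (by omega) (fun k r => ?_) M r hM
  obtain ⟨e, hke, hmod⟩ : ∃ e, k ≤ e ∧ 2 ^ e ≡ 1 [MOD b] := by
    refine ⟨b.totient * k, ?_, ?_⟩
    · exact Nat.le_mul_of_pos_left k (Nat.totient_pos.2 hbp)
    · rw [pow_mul]
      have h1 := (Nat.ModEq.pow_totient (Nat.coprime_two_left.2 hb)).pow k
      rwa [one_pow] at h1
  obtain ⟨q, hq⟩ : ∃ q, 2 ^ e = 1 + b * q := by
    obtain ⟨q, hq⟩ := (Nat.modEq_iff_dvd' (Nat.one_le_two_pow)).1 hmod.symm
    exact ⟨q, by have := Nat.one_le_two_pow (n := e); omega⟩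
  set g : S := (f⁻¹) ^ (b * q) with hg
  have hfi : f * f⁻¹ = 1 := PowerSeries.mul_inv_cancel f hu
  have hfg : f ^ 2 ^ e * g = f := by
    rw [hq, hg, pow_add, pow_one, mul_assoc, ← mul_pow, hfi, one_pow, mul_one]
  have hf0 : T5.jj f ≠ 0 := by
    rw [Ne, map_eq_zero_iff T5.jj T5.jj_inj]
    rintro rfl
    exact hu (map_zero _)
  have hgz : AZ (T5.jj g) (-(q * s)) := by
    have h1 : AQ 24 (T5.jj f ^ b) s := aq_to_pow b h
    have h2 := aq_inv (aq_pow h1 q)
    have h3 : ((T5.jj f ^ b) ^ q)⁻¹ = T5.jj g := by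
      have h4 : T5.jj f * T5.jj f⁻¹ = 1 := by rw [← map_mul, hfi, map_one]
      have h5 : T5.jj f⁻¹ = (T5.jj f)⁻¹ := eq_inv_of_mul_eq_one_right h4
      rw [hg, map_pow, h5, ← pow_mul, inv_pow]
    rw [h3] at h2
    exact h2
  have hsec := sec_all hgz (2 ^ k) r (by positivity)
  have h2 : proj (2 ^ k) r f = f ^ 2 ^ e * proj (2 ^ k) r g := by
    conv_lhs => rw [← hfg]
    exact proj_mul_left (2 ^ k) r (by positivity) _ _ (proj_pow_self k e hke f)
  rw [h2, map_mul, map_pow]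
  have h3 := aq_mul (aq_pow h (2 ^ e)) (aq_scale (az_iff_aq.1 hsec) b)
  convert h3 using 1
  rw [hq]
  push_cast
  ring

theorem proj_shift (M r v : ℕ) (g : S) : proj M (r + v) (X ^ v * g) = X ^ v * proj M r g := by
  ext n
  rw [proj, coeff_mk, PowerSeries.coeff_X_pow_mul', PowerSeries.coeff_X_pow_mul']
  by_cases h : v ≤ n
  · obtain ⟨l, rfl⟩ := Nat.exists_eq_add_of_le h
    rw [if_pos h, if_pos h, Nat.add_sub_cancel_left, proj, coeff_mk]
    by_cases h1 : l % M = r % M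
    · rw [if_pos h1, if_pos]
      rw [add_comm v l]
      exact Nat.ModEq.add_right v h1
    · rw [if_neg h1, if_neg]
      intro h2
      apply h1
      rw [add_comm v l] at h2
      exact Nat.ModEq.add_right_cancel' v h2
  · rw [if_neg h, if_neg h]
    simp

theorem proj_congr {M r r' : ℕ} (h : r % M = r' % M) (g : S) : proj M r g = proj M r' g := by
  unfold proj
  rw [h]

/-- sections for all classes with exponents in `(1 / 24 b) Z`, `b` odd -/
theorem secQ {b : ℕ} (hb : Odd b) {f : S} {s : ℤ} (h : AQ (24 * b) (T5.jj f) s) (M r : ℕ)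
    (hM : 0 < M) : AQ (24 * b) (T5.jj (proj M r f)) s := by
  by_cases hf : f = 0
  · have h0 : proj M r f = 0 := by
      rw [hf]
      ext n
      rw [proj, coeff_mk]
      simp
    rw [h0, map_zero]
    exact aq_zero (by have := hb.pos; omega) s
  obtain ⟨v, g, hg, rfl⟩ := fac hf
  have hx : AQ (24 * b) (xx ^ v) ((24 * b : ℕ) * v) := by
    have := aq_scale (az_iff_aq.1 (az_x v)) b
    convert this using 1
    push_cast
    ring
  have hg2 : AQ (24 * b) (T5.jj g) (s - (24 * b : ℕ) * v) := by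
    have h1 := aq_mul (aq_inv hx) h
    have h2 : (xx ^ v)⁻¹ * T5.jj (X ^ v * g) = T5.jj g := by
      rw [map_mul, map_pow, ← mul_assoc, inv_mul_cancel₀ (pow_ne_zero _ xx_ne), one_mul]
    rw [h2] at h1
    convert h1 using 1
    ring
  have h3 : proj M r (X ^ v * g) = X ^ v * proj M (r + (M - 1) * v) g := by
    rw [← proj_shift]
    apply proj_congr
    have h4 : r + (M - 1) * v + v = r + M * v := by
      obtain ⟨m, rfl⟩ : ∃ m, M = m + 1 := ⟨M - 1, by omega⟩
      rw [Nat.add_sub_cancel]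
      ring
    rw [h4, Nat.add_mul_mod_self_left]
  rw [h3, map_mul, map_pow]
  have h5 := aq_mul hx (secQ_unit hb hg hg2 M (r + (M - 1) * v) hM)
  convert h5 using 1
  ring

end Pool.Agent.Run7.h363.PA
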