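import Pool.Agent.Run7.h363.PA.Gr3
import Pool.Agent.Run7.h363.PA.Di

set_option autoImplicit false

/-!
# A linear relation splits according to the exponents modulo 1; the pattern theorem
-/

namespace Pool.Agent.Run7.h363.PA

open PowerSeries Pool.Agent.TH693.PP Pool.Agent.TH693.QQ Pool.Agent.H397R2.PP Pool.Agent.Y627.PT
open Pool.Agent.Y517.PT (cl_map cl_comap Om Kc mem_Kc eq_zero_of_root X_notMem)

theorem eval_io' {N : ℕ} (xi : Om) (hxi : xi ^ N = Pool.Agent.Y517.PT.e (T5.jj X)) (f : F) :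
    Pool.Agent.Y517.PT.e (T5.jj (io f)) =
      (Polynomial.expand Om N (f.map (algebraMap (ZMod 2) Om))).eval xi := by
  rw [Polynomial.expand_eval, hxi]
  have h : ((Pool.Agent.Y517.PT.e : Lk →+* Om).comp ((T5.jj : S →+* Lk).comp io)) =
      (Polynomial.eval₂RingHom (algebraMap (ZMod 2) Om) (Pool.Agent.Y517.PT.e (T5.jj X))) := by
    apply Polynomial.ringHom_ext
    · intro a
      rw [RingHom.comp_apply, RingHom.comp_apply, QE2.io_C, Polynomial.coe_eval₂RingHom,
        Polynomial.eval₂_C]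
      change Pool.Agent.Y517.PT.e (T5.jj (algebraMap (ZMod 2) S a)) = _
      rw [T5.jj.commutes, Pool.Agent.Y517.PT.e.commutes]
    · rw [RingHom.comp_apply, RingHom.comp_apply, QE2.io_X, Polynomial.coe_eval₂RingHom,
        Polynomial.eval₂_X]
      rfl
  have h1 := RingHom.congr_fun h f
  rw [Polynomial.coe_eval₂RingHom] at h1
  rw [Polynomial.eval_map]
  exact h1

theorem splt {N : ℕ} (hN : 0 < N) {J : Type} [Fintype J] (h : J → Lk) (s : J → ℤ)
    (hh : ∀ j, AQ N (h j) (s j)) (c : J → F) (d : F)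
    (hrel : ∑ j, T5.jj (io (c j)) * h j + T5.jj (io d) = 0) (s0 : ℤ) (hs0 : ¬ (N : ℤ) ∣ s0)
    (n0 : ℕ) (hsep : ∀ j, (N : ℤ) ∣ s j - s0 → s j = s0) :
    ∑ j, (if s j = s0 then algebraMap (ZMod 2) Lk ((c j).coeff n0) * h j else 0) = 0 := by
  classical
  set e := Pool.Agent.Y517.PT.e with he
  obtain ⟨xi, hxi⟩ : ∃ xi : Om, xi ^ N = e (T5.jj X) :=
    IsAlgClosed.exists_pow_nat_eq (e (T5.jj X)) hN
  set dO : Om := e (T5.jj Db) with hdO
  have hX : e (T5.jj X) ∉ QE2.cl (ZMod 2) {dO} := fun h => X_notMem QC.qc (cl_comap e h)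
  have hxiK : xi ∉ QE2.cl (ZMod 2) {dO} := fun h => hX (hxi ▸ QE2.pow_mem' h N)
  have hxi0 : xi ≠ 0 := by
    rintro rfl
    rw [zero_pow hN.ne'] at hxi
    exact xx_ne ((map_eq_zero e.toRingHom).1 hxi.symm)
  set de : J → Om := fun j => e (h j) * xi ^ (-(s j)) with hde
  have hdeK : ∀ j, de j ∈ QE2.cl (ZMod 2) {dO} := by
    intro j
    apply QE2.of_pow_mem (n := N) hN
    have h1 := cl_map e (hh j)
    have h2 : de j ^ N = e (h j ^ N * xx ^ (-(s j))) := by
      rw [map_mul, map_pow, map_zpow₀, hde]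
      simp only
      rw [mul_pow, ← zpow_natCast (xi ^ (-(s j))) N, ← zpow_mul, mul_comm (-(s j)) (N : ℤ),
        zpow_mul, zpow_natCast, hxi]
    rw [h2]
    exact h1
  have hdex : ∀ j, de j * xi ^ (s j) = e (h j) := by
    intro j
    rw [hde]
    simp only
    rw [mul_assoc, ← zpow_add₀ hxi0, neg_add_cancel, zpow_zero, mul_one]
  -- common shift
  obtain ⟨k0, hk0, hk1⟩ : ∃ k0 : ℕ, (∀ j, 0 ≤ (N : ℤ) * k0 + s j) ∧ 0 ≤ (N : ℤ) * k0 + s0 := by
    refine ⟨∑ j, (s j).natAbs + s0.natAbs, fun j => ?_, ?_⟩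
    · have h1 : (s j).natAbs ≤ ∑ j, (s j).natAbs :=
        Finset.single_le_sum (f := fun j => (s j).natAbs) (fun _ _ => Nat.zero_le _)
          (Finset.mem_univ j)
      have h2 : ((s j).natAbs : ℤ) ≤ (N : ℤ) * ((∑ j, (s j).natAbs + s0.natAbs : ℕ) : ℤ) := by
        have h3 : (s j).natAbs ≤ N * (∑ j, (s j).natAbs + s0.natAbs) :=
          (h1.trans (Nat.le_add_right _ _)).trans (Nat.le_mul_of_pos_left _ hN)
        exact_mod_cast h3
      omega
    · have h2 : (s0.natAbs : ℤ) ≤ (N : ℤ) * ((∑ j, (s j).natAbs + s0.natAbs : ℕ) : ℤ) := by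
        have h3 : s0.natAbs ≤ N * (∑ j, (s j).natAbs + s0.natAbs) :=
          (Nat.le_add_left _ _).trans (Nat.le_mul_of_pos_left _ hN)
        exact_mod_cast h3
      omega
  set t : J → ℕ := fun j => ((N : ℤ) * k0 + s j).toNat with ht
  have htz : ∀ j, (t j : ℤ) = (N : ℤ) * k0 + s j := fun j => Int.toNat_of_nonneg (hk0 j)
  set t0 : ℕ := ((N : ℤ) * k0 + s0).toNat with ht0
  have ht0z : (t0 : ℤ) = (N : ℤ) * k0 + s0 := Int.toNat_of_nonneg hk1
  -- the polynomial
  set q : F → Polynomial Om := fun f => Polynomial.expand Om N (f.map (algebraMap (ZMod 2) Om))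
    with hq
  set Q : Polynomial Om :=
    ∑ j, Polynomial.C (de j) * (Polynomial.X ^ t j * q (c j)) + Polynomial.X ^ (N * k0) * q d
    with hQ
  have hqK : ∀ (f : F) (n : ℕ), (q f).coeff n ∈ Kc (ZMod 2) dO := by
    intro f n
    rw [hq]
    simp only
    rw [Polynomial.coeff_expand hN]
    split_ifs with h
    · rw [Polynomial.coeff_map]
      have h1 : algebraMap (ZMod 2) Om (f.coeff (n / N)) =
        algebraMap (Algebra.adjoin (ZMod 2) {dO}) Om
          (algebraMap (ZMod 2) (Algebra.adjoin (ZMod 2) {dO}) (f.coeff (n / N))) := rfl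
      rw [h1]
      exact Subalgebra.algebraMap_mem _ _
    · exact Subalgebra.zero_mem _
  have hXK : ∀ (a : ℕ) (f : F) (n : ℕ), (Polynomial.X ^ a * q f).coeff n ∈ Kc (ZMod 2) dO := by
    intro a f n
    rw [Polynomial.coeff_X_pow_mul']
    split_ifs
    · exact hqK _ _
    · exact Subalgebra.zero_mem _
  have hQK : ∀ n, Q.coeff n ∈ QE2.cl (ZMod 2) {dO} := by
    intro n
    rw [← mem_Kc, hQ, Polynomial.coeff_add, Polynomial.finsetSum_coeff]
    refine Subalgebra.add_mem _ (Subalgebra.sum_mem _ fun j _ => ?_) (hXK _ d n)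
    rw [Polynomial.coeff_C_mul]
    exact Subalgebra.mul_mem _ (mem_Kc.2 (hdeK j)) (hXK _ _ n)
  have hQ0 : Q = 0 := by
    apply eq_zero_of_root hxiK Q hQK
    rw [hQ, Polynomial.eval_add, Polynomial.eval_finsetSum]
    have h1 : ∀ j, (Polynomial.C (de j) * (Polynomial.X ^ t j * q (c j))).eval xi =
        xi ^ (N * k0) * e (T5.jj (io (c j)) * h j) := by
      intro j
      rw [Polynomial.eval_mul, Polynomial.eval_mul, Polynomial.eval_C, Polynomial.eval_pow,
        Polynomial.eval_X, map_mul, ← hdex, ← eval_io' xi hxi, ← zpow_natCast xi (t j), htz,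
        zpow_add₀ hxi0, ← zpow_natCast xi (N * k0)]
      push_cast
      ring
    rw [Finset.sum_congr rfl (fun j _ => h1 j), ← Finset.mul_sum]
    have h2 : (Polynomial.X ^ (N * k0) * q d).eval xi = xi ^ (N * k0) * e (T5.jj (io d)) := by
      rw [Polynomial.eval_mul, Polynomial.eval_pow, Polynomial.eval_X, ← eval_io' xi hxi]
    rw [h2, ← mul_add, ← map_sum, ← map_add, hrel, map_zero, mul_zero]
  have hc := congrArg (fun R : Polynomial Om => R.coeff (N * n0 + t0)) hQ0
  simp only [Polynomial.coeff_zero] at hc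
  rw [hQ, Polynomial.coeff_add, Polynomial.finsetSum_coeff] at hc
  have hNz : (N : ℤ) ≠ 0 := by exact_mod_cast hN.ne'
  have h1 : ∀ j, (Polynomial.C (de j) * (Polynomial.X ^ t j * q (c j))).coeff (N * n0 + t0) =
      if s j = s0 then algebraMap (ZMod 2) Om ((c j).coeff n0) * de j else 0 := by
    intro j
    rw [Polynomial.coeff_C_mul, Polynomial.coeff_X_pow_mul']
    by_cases h2 : s j = s0
    · have h3 : t j = t0 := by
        rw [ht, ht0]
        simp only
        rw [h2]
      rw [if_pos h2, h3, if_pos (Nat.le_add_left _ _), Nat.add_sub_cancel, hq]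
      simp only
      rw [mul_comm N n0, Polynomial.coeff_expand_mul hN, Polynomial.coeff_map, mul_comm]
    · rw [if_neg h2]
      split_ifs with h3
      · rw [hq]
        simp only
        rw [Polynomial.coeff_expand hN, if_neg, mul_zero]
        rintro ⟨k, hk⟩
        apply h2
        apply hsep
        refine ⟨n0 - k, ?_⟩
        have h4 : N * n0 + t0 = t j + N * k := by omega
        have h5 : (N : ℤ) * n0 + t0 = t j + N * k := by exact_mod_cast h4
        rw [htz, ht0z] at h5
        linear_combination -h5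
      · rw [mul_zero]
  have h2 : (Polynomial.X ^ (N * k0) * q d).coeff (N * n0 + t0) = 0 := by
    rw [Polynomial.coeff_X_pow_mul']
    split_ifs with h3
    · rw [hq]
      simp only
      rw [Polynomial.coeff_expand hN, if_neg]
      rintro ⟨k, hk⟩
      apply hs0
      refine ⟨k - n0, ?_⟩
      have h4 : N * n0 + t0 = N * k0 + N * k := by omega
      have h5 : (N : ℤ) * n0 + t0 = N * k0 + N * k := by exact_mod_cast h4
      rw [ht0z] at h5
      linear_combination h5
    · rfl
  rw [Finset.sum_congr rfl (fun j _ => h1 j), h2, add_zero] at hc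
  have hinj : Function.Injective e := e.toRingHom.injective
  apply hinj
  rw [map_zero, map_sum]
  have h3 : ∀ j, e (if s j = s0 then algebraMap (ZMod 2) Lk ((c j).coeff n0) * h j else 0) =
      (if s j = s0 then algebraMap (ZMod 2) Om ((c j).coeff n0) * de j else 0) * xi ^ s0 := by
    intro j
    split_ifs with h4
    · rw [map_mul, e.commutes, ← hdex, h4]
      ring
    · rw [map_zero, zero_mul]
  rw [Finset.sum_congr rfl (fun j _ => h3 j), ← Finset.sum_mul, hc, zero_mul]

/-- the coefficients of the sections of the active functions vanish -/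
theorem lin_act {N : ℕ} (hN : 0 < N) {J : Type} [Fintype J] (G : J → S) (s : J → ℤ) (M : ℕ)
    (hG : ∀ j r, AQ N (T5.jj (proj M r (G j))) (s j)) (j0 : J) (h0 : ¬ (N : ℤ) ∣ s j0)
    (hsep : ∀ j, j ≠ j0 → ¬ (N : ℤ) ∣ s j - s j0) (c : J × Fin M → F) (d : F)
    (hrel : ∑ j : J × Fin M, io (c j) * proj M j.2 (G j.1) + io d = 0)
    (r0 : Fin M) (hr0 : proj M r0 (G j0) ≠ 0) : c (j0, r0) = 0 := by
  classical
  have hrel2 : ∑ j : J × Fin M, T5.jj (io (c j)) * T5.jj (proj M j.2 (G j.1)) +
      T5.jj (io d) = 0 := by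
    have := congrArg T5.jj hrel
    rw [map_add, map_sum, map_zero] at this
    rw [← this]
    congr 1
    exact Finset.sum_congr rfl fun j _ => (map_mul _ _ _).symm
  have hss : ∀ j, s j = s j0 → j = j0 := by
    intro j hj
    by_contra hne
    exact hsep j hne (by rw [hj, sub_self]; exact dvd_zero _)
  apply Polynomial.ext
  intro n0
  rw [Polynomial.coeff_zero]
  have h1 := splt hN (fun j : J × Fin M => T5.jj (proj M j.2 (G j.1))) (fun j => s j.1)
    (fun j => hG _ _) c d hrel2 (s j0) h0 n0 (fun j hj => by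
      by_cases hne : j.1 = j0
      · rw [hne]
      · exact absurd hj (hsep _ hne))
  have h2 : T5.jj (∑ r : Fin M, algebraMap (ZMod 2) S ((c (j0, r)).coeff n0) *
      proj M r (G j0)) = 0 := by
    rw [map_sum, ← h1, Fintype.sum_prod_type, Finset.sum_eq_single j0]
    · refine Finset.sum_congr rfl fun r _ => ?_
      rw [if_pos rfl, map_mul, T5.jj.commutes]
    · intro j _ hj
      refine Finset.sum_eq_zero fun r _ => ?_
      rw [if_neg (fun h => hj (hss j h))]
    · intro h
      exact absurd (Finset.mem_univ _) h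
  have h3 := T5.jj_inj (h2.trans (map_zero _).symm)
  obtain ⟨n, hn⟩ : ∃ n, coeff n (proj M r0 (G j0)) ≠ 0 := by
    by_contra hcon
    push Not at hcon
    exact hr0 (PowerSeries.ext (fun n => by rw [map_zero]; exact hcon n))
  have hnr : n % M = r0 % M := by
    by_contra h
    apply hn
    rw [proj, coeff_mk, if_neg h]
  have h4 := congrArg (coeff n) h3
  rw [map_sum, map_zero, Finset.sum_eq_single r0] at h4
  · rw [← Algebra.smul_def, map_smul, smul_eq_mul] at h4
    exact (mul_eq_zero.1 h4).resolve_right hn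
  · intro r _ hr
    rw [← Algebra.smul_def, map_smul, smul_eq_mul, proj, coeff_mk, if_neg, mul_zero]
    intro h12
    apply hr
    rw [hnr, Nat.mod_eq_of_lt r0.2, Nat.mod_eq_of_lt r.2] at h12
    exact Fin.ext h12.symm
  · intro h
    exact absurd (Finset.mem_univ _) h

end Pool.Agent.Run7.h363.PA
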