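import Pool.Agent.Run7.h363.PA.Gr4

set_option autoImplicit false

/-!
# The pattern theorem with active functions
-/

namespace Pool.Agent.Run7.h363.PA

open PowerSeries Pool.Agent.TH693.PP Pool.Agent.TH693.QQ Pool.Agent.H397R2.PP Pool.Agent.Y627.PT

/-- the pattern lemma -/
theorem pat_act {J : Type} [Fintype J] (f : J → S) (M : ℕ) (hM : 0 < M) (Act : J → Prop)
    (hLF : LFor (fun j : J × Fin M => proj M j.2 (f j.1)))
    (hLIN : ∀ (a : J × Fin M → F) (b : F),
      ∑ j : J × Fin M, io (a j) * proj M j.2 (f j.1) + io b = 0 →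
      ∀ j : J, Act j → ∀ r : Fin M, proj M r (f j) ≠ 0 → a (j, r) = 0) :
    ∃ C : ℕ, ∀ (L : ℕ) (c : J → Fin (L + 1) → ZMod 2) (ρ : ℕ),
      (∃ t i, Act t ∧ c t i ≠ 0 ∧ proj M (ρ + i) (f t) ≠ 0) → ∀ (κ : ZMod 2) (A : ℕ),
      ∃ n, A ≤ n ∧ n ≤ C * (A + L + 1) ∧ n % M = ρ % M ∧
        ∑ t, ∑ i : Fin (L + 1), c t i * coeff (n + i) (f t) = κ := by
  classical
  obtain ⟨C, hC⟩ := hLF
  refine ⟨C * (M + 1), fun L c ρ hc κ A => ?_⟩
  by_contra hcon
  push Not at hcon
  have h1 : ∀ a b : ZMod 2, a ≠ b → a = b + 1 := by decide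
  set B := C * (M + 1) * (A + L + 1) with hB
  have hrun : ∀ n, A ≤ n → n ≤ B → n % M = ρ % M →
      ∑ t, ∑ i : Fin (L + 1), c t i * coeff (n + i) (f t) = κ + 1 :=
    fun n h2 h3 h4 => h1 _ _ (hcon n h2 h3 h4)
  -- the coefficients
  set a : J × Fin M → F := fun j => ∑ i : Fin (L + 1), if (ρ + i) % M = j.2 then
    Polynomial.C (c j.1 i) * Polynomial.X ^ (L - i) else 0 with ha
  set l0 : S := ∑ j : J × Fin M, io (a j) * proj M j.2 (f j.1) with hl0
  have hco : ∀ n, coeff (n + L) l0 = if n % M = ρ % M then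
      ∑ t, ∑ i : Fin (L + 1), c t i * coeff (n + i) (f t) else 0 := by
    intro n
    have e1 : ∀ j : J × Fin M, coeff (n + L) (io (a j) * proj M j.2 (f j.1)) =
        ∑ i : Fin (L + 1), if (ρ + i) % M = j.2 then
          c j.1 i * coeff (n + i) (proj M j.2 (f j.1)) else 0 := by
      intro j
      rw [ha]
      simp only [map_sum, Finset.sum_mul]
      refine Finset.sum_congr rfl fun i _ => ?_
      split_ifs with h2
      · have h4 : io (Polynomial.C (c j.1 i) * Polynomial.X ^ (L - (i : ℕ))) =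
            algebraMap (ZMod 2) S (c j.1 i) * X ^ (L - (i : ℕ)) := by
          rw [map_mul, map_pow, QE2.io_X, QE2.io_C]
        have h3 : n + L = (n + i) + (L - i) := by have := i.2; omega
        rw [h4, mul_assoc, h3, ← Algebra.smul_def, map_smul, PowerSeries.coeff_X_pow_mul,
          smul_eq_mul]
      · rw [map_zero, zero_mul, map_zero]
    rw [hl0, map_sum, Finset.sum_congr rfl fun j _ => e1 j, Fintype.sum_prod_type]
    have e2 : ∀ t : J, ∑ r : Fin M, ∑ i : Fin (L + 1), (if (ρ + i) % M = (r : ℕ) then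
        c t i * coeff (n + i) (proj M r (f t)) else 0) =
        ∑ i : Fin (L + 1), if n % M = ρ % M then c t i * coeff (n + i) (f t) else 0 := by
      intro t
      rw [Finset.sum_comm]
      refine Finset.sum_congr rfl fun i _ => ?_
      have hlt : (ρ + i) % M < M := Nat.mod_lt _ hM
      rw [Finset.sum_eq_single (⟨(ρ + i) % M, hlt⟩ : Fin M)]
      · rw [if_pos rfl]
        unfold proj
        rw [coeff_mk]
        simp only [Nat.mod_mod]
        by_cases h2 : n % M = ρ % M
        · have h3 : (n + (i : ℕ)) % M = (ρ + i) % M := Nat.ModEq.add_right _ h2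
          rw [if_pos h2, if_pos h3]
        · have h3 : ¬ (n + (i : ℕ)) % M = (ρ + i) % M := fun h3 =>
            h2 (Nat.ModEq.add_right_cancel' _ h3)
          rw [if_neg h2, if_neg h3, mul_zero]
      · intro r _ hr
        rw [if_neg]
        intro h2
        exact hr (Fin.ext h2.symm)
      · intro h2
        exact absurd (Finset.mem_univ _) h2
    rw [Finset.sum_congr rfl fun t _ => e2 t]
    split_ifs
    · rfl
    · simp
  set U : F := 1 + Polynomial.X ^ M with hU
  have hU0 : U ≠ 0 := by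
    intro h0
    have h1 := congrArg (fun g : F => g.coeff 0) h0
    simp only [hU, Polynomial.coeff_add, Polynomial.coeff_one, Polynomial.coeff_X_pow, hM.ne,
      if_true, if_false, add_zero, Polynomial.coeff_zero] at h1
    exact one_ne_zero h1
  have hUd : U.natDegree ≤ M := by
    refine (Polynomial.natDegree_add_le _ _).trans (max_le (by simp) ?_)
    exact (Polynomial.natDegree_X_pow_le M)
  set g : S := io U * l0 with hg
  set b : F := PowerSeries.trunc (A + M + L) g with hb
  set a' : J × Fin M → F := fun j => U * a j with ha'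
  have hlam : ∑ j : J × Fin M, io (a' j) * proj M j.2 (f j.1) + io b = g + io b := by
    rw [hg, hl0, Finset.mul_sum]
    congr 1
    refine Finset.sum_congr rfl fun j _ => ?_
    rw [ha', map_mul, mul_assoc]
  have had : ∀ j, (a j).natDegree ≤ L := by
    intro j
    refine Polynomial.natDegree_sum_le_of_forall_le _ _ fun i _ => ?_
    split_ifs
    · refine (Polynomial.natDegree_C_mul_X_pow_le _ _).trans (Nat.sub_le _ _)
    · simp
  have ha'd : ∀ j, (a' j).natDegree ≤ A + M + L := by
    intro j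
    refine Polynomial.natDegree_mul_le.trans ?_
    have := had j
    omega
  have hbd : b.natDegree ≤ A + M + L := by
    obtain ⟨q, hq⟩ : ∃ q, A + M + L = q + 1 := ⟨A + M + L - 1, by omega⟩
    rw [hb, hq]
    exact (PowerSeries.natDegree_trunc_lt g q).le
  have hne : ∑ j : J × Fin M, io (a' j) * proj M j.2 (f j.1) + io b ≠ 0 := by
    intro h0
    obtain ⟨t, i, hact, hci, hpi⟩ := hc
    have hlt : (ρ + i) % M < M := Nat.mod_lt _ hM
    have hpe : proj M (ρ + i) (f t) = proj M ((ρ + i) % M) (f t) := by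
      unfold proj
      simp only [Nat.mod_mod]
    have h2 := hLIN a' b h0 t hact ⟨(ρ + i) % M, hlt⟩ (by
      rw [hpe] at hpi
      exact hpi)
    have h3 : a (t, ⟨(ρ + i) % M, hlt⟩) = 0 := (mul_eq_zero.1 h2).resolve_left hU0
    have h4 := congrArg (fun q : F => q.coeff (L - i)) h3
    simp only [ha, Polynomial.finset_sum_coeff, Polynomial.coeff_zero] at h4
    rw [Finset.sum_eq_single i] at h4
    · rw [if_pos rfl, Polynomial.coeff_C_mul, Polynomial.coeff_X_pow, if_pos rfl, mul_one] at h4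
      exact hci h4
    · intro i' _ hi'
      split_ifs
      · rw [Polynomial.coeff_C_mul, Polynomial.coeff_X_pow, if_neg, mul_zero]
        intro h5
        apply hi'
        have q1 := i.2
        have q2 := i'.2
        exact Fin.ext (by omega)
      · rw [Polynomial.coeff_zero]
    · intro h5
      exact absurd (Finset.mem_univ _) h5
  have hdvd : (X : S) ^ (B + L + 1) ∣ ∑ j : J × Fin M, io (a' j) * proj M j.2 (f j.1) + io b := by
    rw [hlam, PowerSeries.X_pow_dvd_iff]
    intro m hm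
    rw [map_add, show coeff m (io b) = coeff m (b : S) from rfl, Polynomial.coeff_coe, hb,
      PowerSeries.coeff_trunc]
    split_ifs with h2
    · exact (by decide : ∀ a : ZMod 2, a + a = 0) _
    · rw [add_zero]
      obtain ⟨n, rfl⟩ : ∃ n, m = n + M + L := ⟨m - M - L, by omega⟩
      have e : g = l0 + X ^ M * l0 := by
        rw [hg, hU, map_add, map_one, map_pow, QE2.io_X]
        ring
      have e3 : n + M + L = (n + L) + M := by ring
      rw [e, map_add]
      conv_lhs =>
        congr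
        · rw [hco]
        · rw [e3, PowerSeries.coeff_X_pow_mul, hco]
      rw [Nat.add_mod_right]
      split_ifs with h5
      · rw [hrun n (by omega) (by omega) h5, hrun (n + M) (by omega) (by omega)
          (by rw [Nat.add_mod_right]; exact h5)]
        exact (by decide : ∀ a : ZMod 2, a + a = 0) _
      · rw [add_zero]
  have h3 := hC (A + M + L) a' b ha'd hbd hne _ hdvd
  have h4 : C * (A + M + L + 1) ≤ C * (M + 1) * (A + L + 1) := by
    rw [mul_assoc]
    refine Nat.mul_le_mul_left _ ?_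
    nlinarith [Nat.zero_le (M * A), Nat.zero_le (M * L)]
  omega


theorem aq_mem {N : ℕ} (hN : 0 < N) {f : Lk} {s : ℤ} (h : AQ N f s) : f ∈ KF := by
  have h1 : f ^ N * xx ^ (-s) ∈ KF := QE2.cl_mono (by simp) h
  apply QE2.of_pow_mem (n := N) hN
  have h4 := KF.mul_mem h1 (KF.zpow_mem xx_mem s)
  rwa [mul_assoc, ← zpow_add₀ xx_ne, neg_add_cancel, zpow_zero, mul_one] at h4

/-- the pattern theorem: all sections in classes, active functions -/
theorem gen_act {N : ℕ} (hN : 0 < N) {J : Type} [Fintype J] (G : J → S) (s : J → ℤ) (M : ℕ)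
    (hM : 0 < M) (hG : ∀ j r, AQ N (T5.jj (proj M r (G j))) (s j)) (Act : J → Prop)
    (h0 : ∀ j, Act j → ¬ (N : ℤ) ∣ s j)
    (hsep : ∀ j0, Act j0 → ∀ j, j ≠ j0 → ¬ (N : ℤ) ∣ s j - s j0) :
    ∃ C : ℕ, ∀ (L : ℕ) (c : J → Fin (L + 1) → ZMod 2) (ρ : ℕ),
      (∃ t i, Act t ∧ c t i ≠ 0 ∧ proj M (ρ + i) (G t) ≠ 0) → ∀ (κ : ZMod 2) (A : ℕ),
      ∃ n, A ≤ n ∧ n ≤ C * (A + L + 1) ∧ n % M = ρ % M ∧
        ∑ t, ∑ i : Fin (L + 1), c t i * coeff (n + i) (G t) = κ :=
  pat_act G M hM Act
    (lf Pool.Agent.Y38.PT6.clo mtDb _ fun j => T5.algOver_of_mem (aq_mem hN (hG j.1 j.2)))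
    (fun a b h j hj r hr => lin_act hN G s M hG j (h0 j hj) (hsep j hj) a b h r hr)

end Pool.Agent.Run7.h363.PA
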