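import Pool.Agent.Run7.h363.PA.Gr5

set_option autoImplicit false

/-!
# The classes `X ^ σ K0` are closed under sections, for all rational `σ`
-/

namespace Pool.Agent.Run7.h363.PA

open PowerSeries Pool.Agent.TH693.PP Pool.Agent.TH693.QQ Pool.Agent.H397R2.PP Pool.Agent.Y627.PT
open Pool.Agent.Y517.PT (cl_map cl_comap)

theorem of_ph_mem {B : ℕ} (hB : B ≠ 0) {w : Lk} (h : ph B hB w ∈ K0) : w ∈ K0 := by
  apply cl_comap' (ph B hB)
  refine QE2.cl_cl (s := {T5.jj Db}) ?_ h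
  intro x hx
  rw [Set.mem_singleton_iff.1 hx, Set.image_singleton, ph_jj]
  exact exD_inv hB

theorem ph_mem {B : ℕ} (hB : B ≠ 0) {w : Lk} (h : w ∈ K0) : ph B hB w ∈ K0 := by
  have h2 := cl_map (ph B hB) h
  rw [ph_jj] at h2
  refine QE2.cl_cl (t := {T5.jj Db}) ?_ h2
  intro x hx
  rw [Set.mem_singleton_iff.1 hx]
  exact exD_all hB

theorem ph_xx {B : ℕ} (hB : B ≠ 0) (s : ℤ) : ph B hB (xx ^ s) = xx ^ ((B : ℤ) * s) := by
  have hX : ex B hB X = X ^ B := PowerSeries.expand_X B hB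
  rw [map_zpow₀, ph_jj, hX, map_pow, ← zpow_natCast (T5.jj X) B, ← zpow_mul]

theorem aq_ex {N B : ℕ} (hB : B ≠ 0) {f : S} {s : ℤ} (h : AQ N (T5.jj f) s) :
    AQ N (T5.jj (ex B hB f)) ((B : ℤ) * s) := by
  have h1 := ph_mem hB h
  rw [map_mul, map_pow, ph_jj, ph_xx] at h1
  unfold AQ
  convert h1 using 3
  ring

theorem aq_of_ex {N B : ℕ} (hB : B ≠ 0) {f : S} {s : ℤ}
    (h : AQ N (T5.jj (ex B hB f)) ((B : ℤ) * s)) : AQ N (T5.jj f) s := by
  apply of_ph_mem hB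
  rw [map_mul, map_pow, ph_jj, ph_xx]
  unfold AQ at h
  convert h using 3
  ring

theorem aq_xx {N : ℕ} (i : ℕ) : AQ N (xx ^ i) ((N : ℤ) * i) := by
  unfold AQ
  have h : (xx ^ i) ^ N * xx ^ (-((N : ℤ) * i)) = 1 := by
    rw [← pow_mul, ← zpow_natCast, ← zpow_add₀ xx_ne]
    have : ((i * N : ℕ) : ℤ) + -((N : ℤ) * i) = 0 := by push_cast; ring
    rw [this, zpow_zero]
  rw [h]
  exact K0.one_mem

theorem aq_cancel_xx {N i : ℕ} {f : Lk} {s : ℤ} (h : AQ N (xx ^ i * f) s) :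
    AQ N f (s - (N : ℤ) * i) := by
  have h1 := aq_mul (aq_inv (aq_xx (N := N) i)) h
  rw [← mul_assoc, inv_mul_cancel₀ (pow_ne_zero _ xx_ne), one_mul] at h1
  convert h1 using 1
  ring

/-- extraction -/
theorem fn_aq {N m M i ρ : ℕ} (hi : i < m) {g : S} {s : ℤ}
    (h : AQ N (T5.jj (proj (m * M) (m * ρ + i) g)) s) :
    AQ (N * m) (T5.jj (proj M ρ (fn g m i))) (s - (N : ℤ) * i) := by
  have hm : m ≠ 0 := by omega
  have h1 := fn_rel g m i 1 ρ M m (one_mul m).symm hm one_ne_zero hi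
  rw [ex_one, mul_one] at h1
  rw [← h1, map_mul, map_pow] at h
  have h2 := aq_scale (aq_cancel_xx h) m
  exact aq_of_ex hm h2

/-- sections modulo `M` in a class -/
def SecA (N M : ℕ) (g : S) (s : ℤ) : Prop := ∀ r : ℕ, AQ N (T5.jj (proj M r g)) s

theorem secA_mul {N M : ℕ} (hN : 0 < N) (hM : 0 < M) {f g : S} {s t : ℤ} (hf : SecA N M f s)
    (hg : SecA N M g t) : SecA N M (f * g) (s + t) := by
  intro r
  have h1 : proj M r (f * g) = ∑ a ∈ Finset.range M, ∑ b ∈ Finset.range M,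
      (if (a + b) % M = r % M then proj M a f * proj M b g else 0) := by
    conv_lhs => rw [← sum_proj M hM f, ← sum_proj M hM g, Finset.sum_mul_sum]
    rw [proj_sum']
    refine Finset.sum_congr rfl fun a _ => ?_
    rw [proj_sum']
    exact Finset.sum_congr rfl fun b _ => proj_mul_proj M r a b f g
  rw [h1, map_sum]
  refine aq_sum hN _ _ _ fun a _ => ?_
  rw [map_sum]
  refine aq_sum hN _ _ _ fun b _ => ?_
  split_ifs
  · rw [map_mul]
    exact aq_mul (hf a) (hg b)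
  · rw [map_zero]
    exact aq_zero hN _

theorem secA_one {a M : ℕ} (hM : 0 < M) : SecA (24 * a) M 1 0 := by
  intro r
  have h := aq_scale (az_iff_aq.1 (sec_one M r hM)) a
  rwa [mul_zero] at h

theorem secA_pow {a M : ℕ} (ha : 0 < a) (hM : 0 < M) {f : S} {s : ℤ} (hf : SecA (24 * a) M f s)
    (n : ℕ) : SecA (24 * a) M (f ^ n) (n * s) := by
  induction n with
  | zero =>
    rw [pow_zero, Nat.cast_zero, zero_mul]
    exact secA_one hM
  | succ n ih =>
    rw [pow_succ]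
    have := secA_mul (by omega) hM ih hf
    convert this using 1
    push_cast
    ring

/-- division by a power `2 ^ e`-th power -/
theorem secA_of_pow {N : ℕ} {k e : ℕ} (hke : k ≤ e) {f g : S} {s t : ℤ}
    (hf : AQ N (T5.jj f) s) (hg : SecA N (2 ^ k) g t) :
    SecA N (2 ^ k) (f ^ 2 ^ e * g) (((2 ^ e : ℕ) : ℤ) * s + t) := by
  intro r
  have h2 : proj (2 ^ k) r (f ^ 2 ^ e * g) = f ^ 2 ^ e * proj (2 ^ k) r g :=
    proj_mul_left (2 ^ k) r (by positivity) _ _ (proj_pow_self k e hke f)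
  rw [h2, map_mul, map_pow]
  exact aq_mul (aq_pow hf (2 ^ e)) (hg r)

section cls

variable (a : ℕ)

/-- the function of exponent `1 / (24 2 ^ a)` -/
noncomputable def uu : S := fn P (2 ^ a) 0

theorem uu_sec (k : ℕ) : SecA (24 * 2 ^ a) (2 ^ k) (uu a) 1 := by
  intro r
  have h := fn_aq (N := 24) (m := 2 ^ a) (M := 2 ^ k) (i := 0) (ρ := r) (by positivity)
    (az_iff_aq.1 (sec_P (2 ^ a * 2 ^ k) (2 ^ a * r + 0) (by positivity)))
  simpa [uu] using h

theorem uu_const : constantCoeff (uu a) = 1 := by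
  rw [← PowerSeries.coeff_zero_eq_constantCoeff_apply, uu, fn, coeff_mk, mul_zero, zero_add,
    PowerSeries.coeff_zero_eq_constantCoeff_apply, constP]

theorem uu_aq : AQ (24 * 2 ^ a) (T5.jj (uu a)) 1 := by
  have h := uu_sec a 0 0
  rwa [pow_zero, proj_one] at h

theorem uu_mul_inv : uu a * (uu a)⁻¹ = 1 := by
  apply PowerSeries.mul_inv_cancel
  rw [uu_const]
  exact one_ne_zero

theorem uu_inv_aq : AQ (24 * 2 ^ a) (T5.jj (uu a)⁻¹) (-1) := by
  have h4 : T5.jj (uu a) * T5.jj (uu a)⁻¹ = 1 := by rw [← map_mul, uu_mul_inv, map_one]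
  rw [eq_inv_of_mul_eq_one_right h4]
  exact aq_inv (uu_aq a)

theorem uu_inv_sec (k : ℕ) : SecA (24 * 2 ^ a) (2 ^ k) (uu a)⁻¹ (-1) := by
  have h1 := secA_of_pow (le_refl k) (uu_inv_aq a)
    (secA_pow (by positivity) (by positivity) (uu_sec a k) (2 ^ k - 1))
  have h2 : (uu a)⁻¹ ^ 2 ^ k * (uu a) ^ (2 ^ k - 1) = (uu a)⁻¹ := by
    obtain ⟨q, hq⟩ : ∃ q, 2 ^ k = q + 1 := ⟨2 ^ k - 1, by have := Nat.one_le_two_pow (n := k); omega⟩
    rw [hq, Nat.add_sub_cancel, pow_succ, mul_right_comm, ← mul_pow, mul_comm _ (uu a), uu_mul_inv,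
      one_pow, one_mul]
  rw [h2] at h1
  convert h1 using 1
  have := Nat.one_le_two_pow (n := k)
  push_cast [Nat.cast_sub this]
  ring

theorem sec_N1 {f : S} {s : ℤ} (hf : AQ (24 * 2 ^ a) (T5.jj f) s) (k : ℕ) :
    SecA (24 * 2 ^ a) (2 ^ k) f s := by
  have hN : 0 < 24 * 2 ^ a := by positivity
  have h0 : ∀ g : S, AQ (24 * 2 ^ a) (T5.jj g) 0 → SecA (24 * 2 ^ a) (2 ^ k) g 0 := by
    intro g hg r
    have h1 : T5.jj g ∈ K0 := by
      unfold AQ at hg
      rw [neg_zero, zpow_zero, mul_one] at hg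
      exact QE2.of_pow_mem hN hg
    have h := aq_scale (az_iff_aq.1 (two_power k g h1 r)) (2 ^ a)
    rwa [mul_zero] at h
  rcases Int.eq_nat_or_neg s with ⟨n, rfl | rfl⟩
  · have h1 : AQ (24 * 2 ^ a) (T5.jj (f * (uu a)⁻¹ ^ n)) 0 := by
      rw [map_mul, map_pow]
      have := aq_mul hf (aq_pow (uu_inv_aq a) n)
      convert this using 1
      ring
    have h2 := secA_mul hN (by positivity) (h0 _ h1)
      (secA_pow (by positivity) (by positivity) (uu_sec a k) n)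
    have h3 : f * (uu a)⁻¹ ^ n * (uu a) ^ n = f := by
      rw [mul_assoc, ← mul_pow, mul_comm (uu a)⁻¹, uu_mul_inv, one_pow, mul_one]
    rw [h3] at h2
    convert h2 using 1
    ring
  · have h1 : AQ (24 * 2 ^ a) (T5.jj (f * (uu a) ^ n)) 0 := by
      rw [map_mul, map_pow]
      have := aq_mul hf (aq_pow (uu_aq a) n)
      convert this using 1
      ring
    have h2 := secA_mul hN (by positivity) (h0 _ h1)
      (secA_pow (by positivity) (by positivity) (uu_inv_sec a k) n)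
    have h3 : f * (uu a) ^ n * (uu a)⁻¹ ^ n = f := by
      rw [mul_assoc, ← mul_pow, uu_mul_inv, one_pow, mul_one]
    rw [h3] at h2
    convert h2 using 1
    ring

end cls

theorem secA_unit {a b : ℕ} (hb : Odd b) {f : S} (hu : constantCoeff f ≠ 0) {s : ℤ}
    (h : AQ (24 * 2 ^ a * b) (T5.jj f) s) (M r : ℕ) (hM : 0 < M) :
    AQ (24 * 2 ^ a * b) (T5.jj (proj M r f)) s := by
  have hbp : 0 < b := hb.pos
  refine all_M (N := 24 * 2 ^ a * b) (by positivity) (fun k r => ?_) M r hM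
  obtain ⟨e, hke, hmod⟩ : ∃ e, k ≤ e ∧ 2 ^ e ≡ 1 [MOD b] := by
    refine ⟨b.totient * k, ?_, ?_⟩
    · exact Nat.le_mul_of_pos_left k (Nat.totient_pos.2 hbp)
    · rw [pow_mul]
      have h1 := (Nat.ModEq.pow_totient (Nat.coprime_two_left.2 hb)).pow k
      rwa [one_pow] at h1
  obtain ⟨q, hq⟩ : ∃ q, 2 ^ e = 1 + b * q := by
    obtain ⟨q, hq⟩ := (Nat.modEq_iff_dvd' (Nat.one_le_two_pow)).1 hmod.symm
    exact ⟨q, by have := Nat.one_le_two_pow (n := e); omega⟩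
  set g : S := (f⁻¹) ^ (b * q) with hg
  have hfi : f * f⁻¹ = 1 := PowerSeries.mul_inv_cancel f hu
  have hfg : f ^ 2 ^ e * g = f := by
    rw [hq, hg, pow_add, pow_one, mul_assoc, ← mul_pow, hfi, one_pow, mul_one]
  have hgz : AQ (24 * 2 ^ a) (T5.jj g) (-(q * s)) := by
    have h1 : AQ (24 * 2 ^ a) (T5.jj f ^ b) s := aq_to_pow b h
    have h2 := aq_inv (aq_pow h1 q)
    have h3 : ((T5.jj f ^ b) ^ q)⁻¹ = T5.jj g := by
      have h4 : T5.jj f * T5.jj f⁻¹ = 1 := by rw [← map_mul, hfi, map_one]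
      have h5 : T5.jj f⁻¹ = (T5.jj f)⁻¹ := eq_inv_of_mul_eq_one_right h4
      rw [hg, map_pow, h5, ← pow_mul, inv_pow]
    rw [h3] at h2
    exact h2
  have hsec : SecA (24 * 2 ^ a * b) (2 ^ k) g (b * (-(q * s))) :=
    fun r => aq_scale (sec_N1 a hgz k r) b
  have h3 := secA_of_pow hke h hsec r
  rw [hfg] at h3
  convert h3 using 1
  rw [hq]
  push_cast
  ring

/-- sections for all classes -/
theorem secA {N : ℕ} (hN : 0 < N) {f : S} {s : ℤ} (h : AQ N (T5.jj f) s) (M r : ℕ)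
    (hM : 0 < M) : AQ N (T5.jj (proj M r f)) s := by
  by_cases hf : f = 0
  · have h0 : proj M r f = 0 := by
      rw [hf]
      ext n
      rw [proj, coeff_mk]
      simp
    rw [h0, map_zero]
    exact aq_zero hN s
  obtain ⟨a, b, hb, hab⟩ := Nat.exists_eq_two_pow_mul_odd hN.ne'
  have hN' : 24 * 2 ^ a * b = N * 24 := by rw [hab]; ring
  obtain ⟨v, g, hg, rfl⟩ := fac hf
  have hg2 : AQ N (T5.jj g) (s - (N : ℤ) * v) := by
    rw [map_mul, map_pow] at h
    exact aq_cancel_xx h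
  have h3 : proj M r (X ^ v * g) = X ^ v * proj M (r + (M - 1) * v) g := by
    rw [← proj_shift]
    apply proj_congr
    have h4 : r + (M - 1) * v + v = r + M * v := by
      obtain ⟨m, rfl⟩ : ∃ m, M = m + 1 := ⟨M - 1, by omega⟩
      rw [Nat.add_sub_cancel]
      ring
    rw [h4, Nat.add_mul_mod_self_left]
  have h6 : AQ (24 * 2 ^ a * b) (T5.jj g) (24 * (s - (N : ℤ) * v)) := by
    rw [hN']
    exact_mod_cast aq_scale hg2 24
  have h7 := secA_unit hb hg h6 M (r + (M - 1) * v) hM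
  rw [hN'] at h7
  have h8 : AQ N (T5.jj (proj M (r + (M - 1) * v) g)) (s - (N : ℤ) * v) :=
    aq_unscale (d := 24) (by norm_num) (by exact_mod_cast h7)
  rw [h3, map_mul, map_pow]
  have h9 := aq_mul (aq_xx (N := N) v) h8
  convert h9 using 1
  ring

end Pool.Agent.Run7.h363.PA
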