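import Pool.Agent.Run7.h363.PA.Gr6

set_option autoImplicit false

/-!
# Joint patterns of dilates in progressions, arbitrary rational exponents
-/

namespace Pool.Agent.Run7.h363.PA

open PowerSeries Pool.Agent.TH693.PP Pool.Agent.TH693.QQ Pool.Agent.H397R2.PP Pool.Agent.Y627.PT

/-- `x` is active: its exponent is not an integer and does not meet those of the other functions -/
def Active {Y : Type} (σ : Y → ℚ) (m : Y → ℕ) (x : Y) : Prop :=
  (∀ q : ℤ, σ x ≠ q) ∧ ∀ y, y ≠ x → ∀ q : ℤ,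
    σ x * (m y / Nat.gcd (m x) (m y) : ℕ) - σ y * (m x / Nat.gcd (m x) (m y) : ℕ) ≠ q

theorem main_cls {Y : Type} [Fintype Y] (G : Y → S) (N : Y → ℕ) (hN : ∀ x, 0 < N x) (τ : Y → ℤ)
    (hG : ∀ x, AQ (N x) (T5.jj (G x)) (τ x)) (m : Y → ℕ) (hm : ∀ x, 0 < m x) (M : ℕ) (hM : 0 < M) :
    ∃ C : ℕ, ∀ (K : ℕ) (c : Y → ℕ → ZMod 2) (ρ : ℕ),
      (∃ x, Active (fun x => (τ x : ℚ) / N x) m x ∧
        ∃ i < K, c x i ≠ 0 ∧ proj (m x * M) (m x * ρ + i) (G x) ≠ 0) →
      ∀ (κ : ZMod 2) (A : ℕ), ∃ n, A ≤ n ∧ n ≤ C * (A + K) ∧ n % M = ρ % M ∧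
        ∑ x, ∑ i ∈ Finset.range K, c x i * coeff (m x * n + i) (G x) = κ := by
  classical
  set σ : Y → ℚ := fun x => (τ x : ℚ) / N x with hσ
  set B : ℕ := ∏ x, m x with hB
  have hB0 : B ≠ 0 := Finset.prod_ne_zero_iff.2 fun x _ => (hm x).ne'
  have hmB : ∀ x, m x ∣ B := fun x => Finset.dvd_prod_of_mem m (Finset.mem_univ x)
  have hND : ∀ x, ∃ d, (∏ y, N y * m y) = (N x * m x) * d := fun x =>
    Finset.dvd_prod_of_mem (fun y => N y * m y) (Finset.mem_univ x)
  set Nc : ℕ := ∏ y, N y * m y with hNc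
  have hNc0 : 0 < Nc := Finset.prod_pos fun y _ => Nat.mul_pos (hN y) (hm y)
  choose dx hdx using hND
  set s : ((x : Y) × Fin (m x)) → ℤ := fun j => dx j.1 * (τ j.1 - (N j.1 : ℤ) * (j.2 : ℕ)) with hs
  have hNcq : (Nc : ℚ) ≠ 0 := by exact_mod_cast hNc0.ne'
  have hNq : ∀ x, (N x : ℚ) ≠ 0 := fun x => by exact_mod_cast (hN x).ne'
  have hmq : ∀ x, (m x : ℚ) ≠ 0 := fun x => by exact_mod_cast (hm x).ne'
  have hsq : ∀ j : (x : Y) × Fin (m x), (s j : ℚ) / Nc = (σ j.1 - ((j.2 : ℕ) : ℚ)) / m j.1 := by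
    intro j
    have h1 : (Nc : ℚ) = N j.1 * m j.1 * dx j.1 := by exact_mod_cast hdx j.1
    have h2 : (dx j.1 : ℚ) ≠ 0 := by
      intro h3
      rw [h3, mul_zero] at h1
      exact hNcq h1
    have h3 := hNq j.1
    have h4 := hmq j.1
    rw [h1, hs, hσ]
    simp only
    push_cast
    field_simp
  have hsec : ∀ (j : (x : Y) × Fin (m x)) (r : ℕ),
      AQ Nc (T5.jj (proj M r (fn (G j.1) (m j.1) j.2))) (s j) := by
    intro j r
    have h1 := fn_aq (M := M) (ρ := r) j.2.2 (secA (hN j.1) (hG j.1) (m j.1 * M)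
      (m j.1 * r + j.2) (Nat.mul_pos (hm j.1) hM))
    have h2 := aq_scale h1 (dx j.1)
    rw [← hdx j.1] at h2
    exact h2
  obtain ⟨C, hC⟩ := gen_act hNc0 (fun j : (x : Y) × Fin (m x) => fn (G j.1) (m j.1) j.2) s M hM
    hsec (fun j => Active σ m j.1) (by
      rintro j ⟨hact, -⟩ ⟨k, hk⟩
      have h1 := hsq j
      rw [hk] at h1
      push_cast at h1
      rw [mul_div_cancel_left₀ _ hNcq, eq_div_iff (hmq j.1)] at h1
      apply hact (k * m j.1 + (j.2 : ℕ))
      push_cast
      linear_combination -h1) (by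
      rintro ⟨x, i⟩ ⟨-, hact⟩ ⟨y, i'⟩ hne ⟨k, hk⟩
      have h1 := hsq ⟨x, i⟩
      have h2 := hsq ⟨y, i'⟩
      have h3 : (s ⟨y, i'⟩ : ℚ) / Nc - (s ⟨x, i⟩ : ℚ) / Nc = k := by
        rw [← sub_div, ← Int.cast_sub, hk]
        push_cast
        rw [mul_div_cancel_left₀ _ hNcq]
      rw [h1, h2] at h3
      simp only at h3
      by_cases hxy : y = x
      · subst hxy
        apply hne
        have h4 := hmq y
        have h5 : (((i : ℕ) : ℤ) - (i' : ℕ) : ℤ) = m y * k := by
          have h6 : ((i : ℕ) : ℚ) - ((i' : ℕ) : ℚ) = m y * k := by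
            field_simp at h3
            linear_combination h3
          exact_mod_cast h6
        have h7 : k = 0 := by
          by_contra hne'
          have h8 : 1 ≤ |k| := Int.one_le_abs hne'
          have h9 : |((i : ℕ) : ℤ) - (i' : ℕ)| < m y := by
            have q1 := i.2
            have q2 := i'.2
            rw [abs_lt]
            constructor <;> omega
          rw [h5, abs_mul, Nat.abs_cast] at h9
          nlinarith
        rw [h7, mul_zero] at h5
        have h8 : i' = i := Fin.ext (by omega)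
        rw [h8]
      · set g := Nat.gcd (m x) (m y) with hg
        have hg0 : 0 < g := Nat.gcd_pos_of_pos_left _ (hm x)
        obtain ⟨α, hα⟩ := Nat.gcd_dvd_left (m x) (m y)
        obtain ⟨β, hβ⟩ := Nat.gcd_dvd_right (m x) (m y)
        rw [← hg] at hα hβ
        have e1 : m x / g = α := by rw [hα, Nat.mul_div_cancel_left _ hg0]
        have e2 : m y / g = β := by rw [hβ, Nat.mul_div_cancel_left _ hg0]
        have a1 : (m x : ℚ) = g * α := by exact_mod_cast hα
        have a2 : (m y : ℚ) = g * β := by exact_mod_cast hβ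
        have hgq : (g : ℚ) ≠ 0 := by exact_mod_cast hg0.ne'
        have hαq : (α : ℚ) ≠ 0 := by
          intro h
          exact hmq x (by rw [a1, h, mul_zero])
        have hβq : (β : ℚ) ≠ 0 := by
          intro h
          exact hmq y (by rw [a2, h, mul_zero])
        apply hact y hxy (β * (i : ℕ) - α * (i' : ℕ) - g * α * β * k)
        rw [e1, e2]
        rw [a1, a2] at h3
        push_cast
        field_simp at h3
        linear_combination -h3)
  refine ⟨2 * C, fun K c ρ hc κ A => ?_⟩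
  set c' : ((x : Y) × Fin (m x)) → Fin (K + 1) → ZMod 2 := fun j l =>
    if m j.1 * l + j.2 < K then c j.1 (m j.1 * l + j.2) else 0 with hc'
  have hK : 0 < K := by
    obtain ⟨_, -, i0, hi0, -⟩ := hc
    omega
  obtain ⟨n, h1, h2, h4, h5⟩ := hC K c' ρ (by
    obtain ⟨x, hact, i0, hi0, hne, hpr⟩ := hc
    have hlt := Nat.mod_lt i0 (hm x)
    have hdm := Nat.div_add_mod i0 (m x)
    have hle := Nat.div_le_self i0 (m x)
    refine ⟨⟨x, ⟨i0 % m x, hlt⟩⟩, ⟨i0 / m x, by omega⟩, hact, ?_, ?_⟩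
    · rw [hc']
      simp only
      rw [hdm, if_pos hi0]
      exact hne
    · simp only
      intro h0
      apply hpr
      obtain ⟨e, he⟩ := hmB x
      have he0 : e ≠ 0 := by rintro rfl; exact hB0 (by rw [he, mul_zero])
      have h6 := fn_rel (G x) (m x) (i0 % m x) e (ρ + i0 / m x) M B (by rw [he]; ring) hB0 he0 hlt
      rw [h0, map_zero, mul_zero] at h6
      have h7 := ex_inj e he0 ((map_zero (ex e he0)).trans h6)
      have h8 : m x * (ρ + i0 / m x) + i0 % m x = m x * ρ + i0 := by rw [mul_add]; omega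
      rw [h8] at h7
      exact h7.symm) κ A
  refine ⟨n, h1, ?_, h4, ?_⟩
  · refine h2.trans ?_
    have : C * (A + K + 1) ≤ C * (2 * (A + K)) := Nat.mul_le_mul_left _ (by omega)
    refine this.trans (le_of_eq ?_)
    ring
  · rw [← h5, Fintype.sum_sigma]
    refine Finset.sum_congr rfl fun x _ => ?_
    rw [← sum_split (m x) K (hm x) (fun i => c x i * coeff (m x * n + i) (G x)), Finset.sum_range]
    refine Finset.sum_congr rfl fun i0 _ => ?_
    rw [Finset.sum_range]
    refine Finset.sum_congr rfl fun l _ => ?_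
    rw [hc', fn, coeff_mk]
    simp only
    rw [show m x * (n + (l : ℕ)) + (i0 : ℕ) = m x * n + (m x * l + i0) by ring]
    split_ifs
    · rfl
    · rw [zero_mul]

end Pool.Agent.Run7.h363.PA
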