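import Pool.Agent.Run7.h363.PA.Gr7
import Pool.Agent.Run7.h363.PA.Ex

set_option autoImplicit false

/-!
# The classes in terms of power series over `F_2`
-/

namespace Pool.Agent.Run7.h363.PA

open PowerSeries Pool.Agent.TH693.PP Pool.Agent.TH693.QQ Pool.Agent.H397R2.PP Pool.Agent.Y627.PT

theorem P_inv : P⁻¹ = E := by
  have h1 : P * P⁻¹ = 1 := by
    apply PowerSeries.mul_inv_cancel
    rw [constP]
    exact one_ne_zero
  calc P⁻¹ = P⁻¹ * (P * E) := by rw [P_mul_E, mul_one]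
    _ = (P * P⁻¹) * E := by ring
    _ = E := by rw [h1, one_mul]

theorem Db_eq' : X * (P⁻¹) ^ 24 = Db := by rw [P_inv]; rfl

/-- the property AlgD -/
theorem alg_iff {u : S} : IsAlgebraic (Algebra.adjoin (ZMod 2) {Db}) u ↔ T5.jj u ∈ K0 := by
  constructor
  · intro h
    exact cl_of_alg (fun x hx => by rw [Set.mem_singleton_iff.1 hx]; exact dd_mem0) h
  · intro h
    have h1 := QE2.mem_cl.1 h
    have hmap : (Algebra.adjoin (ZMod 2) {Db}).map T5.jj = Algebra.adjoin (ZMod 2) {T5.jj Db} := by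
      rw [AlgHom.map_adjoin, Set.image_singleton]
    let φ : Algebra.adjoin (ZMod 2) {Db} →ₐ[ZMod 2] Algebra.adjoin (ZMod 2) {T5.jj Db} :=
      (T5.jj.comp (Algebra.adjoin (ZMod 2) {Db}).val).codRestrict
        (Algebra.adjoin (ZMod 2) {T5.jj Db}) (by
          intro x
          rw [← hmap]
          exact Subalgebra.mem_map.2 ⟨x.1, x.2, rfl⟩)
    have hsurj : Function.Surjective φ := by
      intro y
      have hy : (y : Lk) ∈ (Algebra.adjoin (ZMod 2) {Db}).map T5.jj := by rw [hmap]; exact y.2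
      obtain ⟨x, hx, hxy⟩ := Subalgebra.mem_map.1 hy
      exact ⟨⟨x, hx⟩, Subtype.ext hxy⟩
    exact IsAlgebraic.of_ringHom_of_comp_eq φ.toRingHom T5.jj.toRingHom h1 hsurj
      T5.jj_inj (RingHom.ext fun x => rfl)

/-- `f = X ^ σ` times a function algebraic over `F_2(D)` -/
def Cl (σ : ℚ) (f : S) : Prop :=
  ∃ (N a b : ℕ) (u v : S), 0 < N ∧ σ = ((a : ℚ) - b) / N ∧
    IsAlgebraic (Algebra.adjoin (ZMod 2) {Db}) u ∧ IsAlgebraic (Algebra.adjoin (ZMod 2) {Db}) v ∧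
    v ≠ 0 ∧ f ^ N * X ^ b * v = X ^ a * u

theorem aq_of_Cl {σ : ℚ} {f : S} (h : Cl σ f) :
    ∃ (N : ℕ) (s : ℤ), 0 < N ∧ σ = (s : ℚ) / N ∧ AQ N (T5.jj f) s := by
  obtain ⟨N, a, b, u, v, hN, hσ, hu, hv, hv0, hrel⟩ := h
  refine ⟨N, (a : ℤ) - b, hN, by rw [hσ]; push_cast; rfl, ?_⟩
  have hjv : T5.jj v ≠ 0 := by
    rw [Ne, map_eq_zero_iff T5.jj T5.jj_inj]
    exact hv0
  have h1 := congrArg T5.jj hrel
  rw [map_mul, map_mul, map_mul, map_pow, map_pow, map_pow] at h1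
  have h2 : T5.jj f ^ N * xx ^ (-((a : ℤ) - b)) = T5.jj u * (T5.jj v)⁻¹ := by
    rw [neg_sub, zpow_sub₀ xx_ne, zpow_natCast, zpow_natCast]
    have h3 := pow_ne_zero a xx_ne
    field_simp
    linear_combination h1
  unfold AQ
  rw [h2]
  exact K0.mul_mem (alg_iff.1 hu) (K0.inv_mem (alg_iff.1 hv))

theorem Cl_of_aq {N : ℕ} (hN : 0 < N) {s : ℤ} {f : S} (h : AQ N (T5.jj f) s) :
    Cl ((s : ℚ) / N) f := by
  rcases Int.eq_nat_or_neg s with ⟨n, rfl | rfl⟩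
  · refine ⟨N, n, 0, f ^ N * (E ^ 24) ^ n, Db ^ n, hN, by push_cast; ring, ?_, ?_, ?_, ?_⟩
    · rw [alg_iff]
      have h1 := K0.mul_mem h (K0.pow_mem dd_mem0 n)
      have h2 : T5.jj f ^ N * xx ^ (-(n : ℤ)) * dd ^ n = T5.jj (f ^ N * (E ^ 24) ^ n) := by
        have hD : dd = xx * T5.jj (E ^ 24) := by
          change T5.jj Db = T5.jj X * T5.jj (E ^ 24)
          rw [← map_mul]
          rfl
        rw [hD, map_mul, map_pow, map_pow, mul_pow, zpow_neg, zpow_natCast]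
        have h3 := pow_ne_zero n xx_ne
        field_simp
        simp only [map_pow]
      rw [← h2]
      exact h1
    · rw [alg_iff, map_pow]
      exact K0.pow_mem dd_mem0 n
    · apply pow_ne_zero
      intro h1
      exact jjDb_ne (by rw [h1, map_zero])
    · have hD : Db = X * E ^ 24 := rfl
      rw [hD, pow_zero, mul_one, mul_pow]
      ring
  · refine ⟨N, 0, n, f ^ N * X ^ n, 1, hN, by push_cast; ring, ?_, ?_, one_ne_zero, ?_⟩
    · rw [alg_iff]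
      unfold AQ at h
      rw [neg_neg, zpow_natCast] at h
      rw [map_mul, map_pow, map_pow]
      exact h
    · exact isAlgebraic_one
    · ring

theorem Cl_sec {σ : ℚ} {f : S} (h : Cl σ f) (M r : ℕ) (hM : 0 < M) : Cl σ (proj M r f) := by
  obtain ⟨N, s, hN, rfl, h1⟩ := aq_of_Cl h
  exact Cl_of_aq hN (secA hN h1 M r hM)

theorem Cl_fn {σ : ℚ} {f : S} (h : Cl σ f) (M r : ℕ) (hM : r < M) :
    Cl ((σ - r) / M) (fn f M r) := by
  obtain ⟨N, s, hN, rfl, h1⟩ := aq_of_Cl h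
  have h2 := fn_aq (M := 1) (ρ := 0) hM (secA hN h1 (M * 1) (M * 0 + r) (by omega))
  rw [proj_one] at h2
  have h3 := Cl_of_aq (Nat.mul_pos hN (by omega : 0 < M)) h2
  have h4 : ((s : ℚ) / N - r) / M = ((s - (N : ℤ) * (r : ℕ) : ℤ) : ℚ) / ((N * M : ℕ) : ℚ) := by
    have q1 : (N : ℚ) ≠ 0 := by exact_mod_cast hN.ne'
    have q2 : (M : ℚ) ≠ 0 := by
      have : M ≠ 0 := by omega
      exact_mod_cast this
    push_cast
    field_simp
  rw [h4]
  exact h3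

theorem main_Cl {k : ℕ} (f : Fin k → S) (σ : Fin k → ℚ) (hf : ∀ j, Cl (σ j) (f j))
    (m : Fin k → ℕ) (hm : ∀ x, 0 < m x) (M : ℕ) (hM : 0 < M) :
    ∃ C : ℕ, ∀ (K : ℕ) (c : Fin k → ℕ → ZMod 2) (ρ : ℕ),
      (∃ x, Active σ m x ∧ ∃ i < K, c x i ≠ 0 ∧ proj (m x * M) (m x * ρ + i) (f x) ≠ 0) →
      ∀ (κ : ZMod 2) (A : ℕ), ∃ n, A ≤ n ∧ n ≤ C * (A + K) ∧ n % M = ρ % M ∧
        ∑ x, ∑ i ∈ Finset.range K, c x i * coeff (m x * n + i) (f x) = κ := by
  choose N s hN hσ h1 using fun j => aq_of_Cl (hf j)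
  have h2 : σ = fun x => (s x : ℚ) / N x := funext hσ
  rw [h2]
  exact main_cls f N hN s h1 m hm M hM

end Pool.Agent.Run7.h363.PA
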